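import Pool.Agent.Helper24.N9.Deg1

/-! MP_9b91d1_co: rows RAYS and PL (helper93). -/

open scoped RealInnerProductSpace Topology

namespace Pool.Agent.Helper30.N9

namespace H93

theorem crs_crs_perp {a r : E3} (ha : ‖a‖ = 1) (h : ⟪a, r⟫ = 0) : crs a (crs a r) = -r := by
  have h1 := inner_self_one ha
  rw [inner_def] at h1 h
  ext i
  fin_cases i
  · simp [crs]
    linear_combination a 0 * h - r 0 * h1
  · simp [crs]
    linear_combination a 1 * h - r 1 * h1
  · simp [crs]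
    linear_combination a 2 * h - r 2 * h1

/-- expansion of a vector orthogonal to `a` in the frame `r0, a × r0` -/
theorem expand {a r0 r : E3} (ha : ‖a‖ = 1) (hr0 : ‖r0‖ = 1) (h0 : ⟪a, r0⟫ = 0)
    (h : ⟪a, r⟫ = 0) : r = ⟪r0, r⟫ • r0 + det3 a r0 r • crs a r0 := by
  have e1 := inner_self_one ha
  have e2 := inner_self_one hr0
  have key : ‖r - (⟪r0, r⟫ • r0 + det3 a r0 r • crs a r0)‖ ^ 2 = 0 := by
    rw [← real_inner_self_eq_norm_sq]
    have h1 := gram a r0 r
    rw [e1, e2, h0, real_inner_comm a r, h] at h1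
    have h2 := crs_inner_self a r0
    rw [e1, e2, h0] at h2
    simp only [inner_sub_left, inner_sub_right, inner_add_left, inner_add_right,
      real_inner_smul_left, real_inner_smul_right, crs_inner]
    have h6 : det3 a r0 (crs a r0) = 1 := by
      rw [← crs_inner, h2]; norm_num
    rw [h6, e2, real_inner_comm r0 r]
    have h3 : ⟪r, crs a r0⟫ = det3 a r0 r := by rw [real_inner_comm, crs_inner]
    have h4 : ⟪r0, crs a r0⟫ = 0 := by
      rw [real_inner_comm, crs_inner]; simp only [det3]; ring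
    have h5 : det3 a r0 r0 = 0 := by simp only [det3]; ring
    rw [h3, h4, h5]
    linear_combination -h1
  have h4 : r - (⟪r0, r⟫ • r0 + det3 a r0 r • crs a r0) = 0 := by
    rw [← norm_eq_zero]; exact pow_eq_zero_iff (two_ne_zero) |>.mp key
  exact sub_eq_zero.mp h4

theorem sq_add_sq {a r0 r : E3} (ha : ‖a‖ = 1) (hr0 : ‖r0‖ = 1) (hr : ‖r‖ = 1)
    (h0 : ⟪a, r0⟫ = 0) (h : ⟪a, r⟫ = 0) : ⟪r0, r⟫ ^ 2 + det3 a r0 r ^ 2 = 1 := by
  have h1 := gram a r0 r
  rw [inner_self_one ha, inner_self_one hr0, inner_self_one hr, h0, real_inner_comm a r, h] at h1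
  linear_combination h1

theorem exists_angle {c s : ℝ} (h : c ^ 2 + s ^ 2 = 1) :
    ∃ t : ℝ, 0 ≤ t ∧ t < 2 * Real.pi ∧ Real.cos t = c ∧ Real.sin t = s := by
  obtain ⟨z, hz⟩ : ∃ z : ℂ, z = ⟨c, s⟩ := ⟨_, rfl⟩
  have hn : ‖z‖ = 1 := by
    rw [Complex.norm_def, Complex.normSq_apply, hz]
    simp only
    rw [show c * c + s * s = 1 by linarith, Real.sqrt_one]
  have hc : Real.cos z.arg = c := by
    rw [Complex.cos_arg (by intro h0; rw [h0, norm_zero] at hn; norm_num at hn), hn, hz]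
    simp
  have hs : Real.sin z.arg = s := by
    rw [Complex.sin_arg, hn, hz]
    simp
  have h1 := Complex.neg_pi_lt_arg z
  have h2 := Complex.arg_le_pi z
  have hp := Real.pi_pos
  by_cases h0 : 0 ≤ z.arg
  · exact ⟨z.arg, h0, by linarith, hc, hs⟩
  · push Not at h0
    exact ⟨z.arg + 2 * Real.pi, by linarith, by linarith, by rw [Real.cos_add_two_pi, hc],
      by rw [Real.sin_add_two_pi, hs]⟩

end H93

open H93 in
theorem st_RAYS : ST_RAYS := by
  intro a r0 ha R hr0 hR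
  obtain ⟨hr1, ha0⟩ := hR r0 hr0
  have hex : ∀ r : E3, ∃ t : ℝ, r ∈ R → 0 ≤ t ∧ t < 2 * Real.pi ∧
      r = Real.cos t • r0 + Real.sin t • crs a r0 ∧ (r = r0 → t = 0) := by
    intro r
    by_cases hr : r ∈ R
    · by_cases hrr : r = r0
      · refine ⟨0, fun _ => ⟨le_refl _, by have := Real.pi_pos; linarith, ?_, fun _ => rfl⟩⟩
        rw [hrr, Real.cos_zero, Real.sin_zero, one_smul, zero_smul, add_zero]
      · obtain ⟨h1, h2⟩ := hR r hr
        obtain ⟨t, t0, t1, t2, t3⟩ := exists_angle (sq_add_sq ha hr1 h1 ha0 h2)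
        refine ⟨t, fun _ => ⟨t0, t1, ?_, fun h' => absurd h' hrr⟩⟩
        rw [t2, t3]
        exact expand ha hr1 ha0 h2
    · exact ⟨0, fun h => absurd h hr⟩
  choose f hf using hex
  classical
  obtain ⟨S, hS⟩ : ∃ S : Finset ℝ, S = R.image f := ⟨_, rfl⟩
  have hmem : ∀ t ∈ S, ∃ r ∈ R, f r = t := by
    intro t ht
    rw [hS, Finset.mem_image] at ht
    exact ht
  have h0S : (0 : ℝ) ∈ S := by
    rw [hS, Finset.mem_image]
    exact ⟨r0, hr0, (hf r0 hr0).2.2.2 rfl⟩
  have hk : 0 < S.card := Finset.card_pos.mpr ⟨0, h0S⟩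
  obtain ⟨g, hg⟩ : ∃ g : Fin S.card ↪o ℝ, g = S.orderEmbOfFin rfl := ⟨_, rfl⟩
  have hgm : ∀ i, g i ∈ S := by
    intro i
    rw [hg]
    exact Finset.orderEmbOfFin_mem S rfl i
  obtain ⟨th, hth⟩ : ∃ th : ℕ → ℝ, th = fun i => if h : i < S.card then g ⟨i, h⟩
      else 2 * Real.pi := ⟨_, rfl⟩
  have ht1 : ∀ i (h : i < S.card), th i = g ⟨i, h⟩ := by
    intro i h
    rw [hth]
    simp only [dif_pos h]
  have ht2 : th S.card = 2 * Real.pi := by
    rw [hth]
    simp
  refine ⟨S.card, th, hk, ?_, ?_, ht2, ?_⟩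
  · rw [ht1 0 hk]
    apply le_antisymm
    · obtain ⟨i, hi⟩ : ∃ i, g i = 0 := by
        have : (0 : ℝ) ∈ Set.range (S.orderEmbOfFin rfl) := by
          rw [Finset.range_orderEmbOfFin]
          exact h0S
        rw [hg]
        exact this
      rw [← hi]
      apply g.monotone
      exact Fin.mk_le_of_le_val (Nat.zero_le _)
    · obtain ⟨r, hr, he⟩ := hmem _ (hgm ⟨0, hk⟩)
      rw [← he]
      exact (hf r hr).1
  · intro i hi
    by_cases hi1 : i + 1 < S.card
    · rw [ht1 i hi, ht1 (i + 1) hi1]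
      apply g.strictMono
      exact Nat.lt_succ_self i
    · have : i + 1 = S.card := by omega
      rw [this, ht2, ht1 i hi]
      obtain ⟨r, hr, he⟩ := hmem _ (hgm ⟨i, hi⟩)
      rw [← he]
      exact (hf r hr).2.1
  · intro r
    constructor
    · intro hr
      have h1 : f r ∈ S := by
        rw [hS, Finset.mem_image]
        exact ⟨r, hr, rfl⟩
      obtain ⟨i, hi⟩ : ∃ i, g i = f r := by
        have : f r ∈ Set.range (S.orderEmbOfFin rfl) := by
          rw [Finset.range_orderEmbOfFin]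
          exact h1
        rw [hg]
        exact this
      refine ⟨i.1, i.2, ?_⟩
      rw [ht1 i.1 i.2, hi]
      exact (hf r hr).2.2.1
    · rintro ⟨i, hi, he⟩
      obtain ⟨r', hr', he'⟩ := hmem _ (hgm ⟨i, hi⟩)
      have h2 := (hf r' hr').2.2.1
      rw [he, ht1 i hi, ← he', ← h2]
      exact hr'

open H93 in
theorem st_PL : ST_PL := by
  intro k th x r hx hth0 hth hr hd
  obtain ⟨ph, hph⟩ : ∃ ph : ℕ → ℝ, ph = fun i =>
      ∑ j ∈ Finset.range i, Real.arccos ⟪r j, r (j + 1)⟫ := ⟨_, rfl⟩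
  have hsucc : ∀ i, ph (i + 1) = ph i + Real.arccos ⟪r i, r (i + 1)⟫ := by
    intro i
    rw [hph]
    simp only
    rw [Finset.sum_range_succ]
  have hph0 : ph 0 = 0 := by rw [hph]; simp
  have hsq : ∀ i < k, ⟪r i, r (i + 1)⟫ ^ 2 + det3 x (r i) (r (i + 1)) ^ 2 = 1 := by
    intro i hi
    exact sq_add_sq hx (hr i hi.le).1 (hr (i + 1) hi).1 (hr i hi.le).2 (hr (i + 1) hi).2
  have hlt : ∀ i < k, ⟪r i, r (i + 1)⟫ < 1 := by
    intro i hi
    have h1 := hsq i hi
    have h2 := (hd i hi).1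
    nlinarith
  have hgt : ∀ i < k, -1 < ⟪r i, r (i + 1)⟫ := by
    intro i hi
    have h1 := hsq i hi
    have h2 := (hd i hi).1
    nlinarith
  have hcos : ∀ i < k, Real.cos (Real.arccos ⟪r i, r (i + 1)⟫) = ⟪r i, r (i + 1)⟫ :=
    fun i hi => Real.cos_arccos (hgt i hi).le (hlt i hi).le
  have hsin : ∀ i < k, Real.sin (Real.arccos ⟪r i, r (i + 1)⟫) = det3 x (r i) (r (i + 1)) := by
    intro i hi
    rw [Real.sin_arccos]
    have h1 : 1 - ⟪r i, r (i + 1)⟫ ^ 2 = det3 x (r i) (r (i + 1)) ^ 2 := by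
      have := hsq i hi
      linarith
    rw [h1]
    exact Real.sqrt_sq (hd i hi).1.le
  refine ⟨ph, hph0, ?_, ?_⟩
  · intro i hi
    rw [hsucc]
    have h1 : 0 < Real.arccos ⟪r i, r (i + 1)⟫ := Real.arccos_pos.mpr (hlt i hi)
    have h2 : Real.arccos ⟪r i, r (i + 1)⟫ ≤ th (i + 1) - th i := by
      rw [← Real.arccos_cos (hth i hi).1.le (hth i hi).2.le]
      exact Real.arccos_le_arccos (hd i hi).2
    constructor
    · linarith
    · linarith
  · intro i
    induction i with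
    | zero =>
      intro _
      rw [hph0, Real.cos_zero, Real.sin_zero, one_smul, zero_smul, add_zero]
    | succ i ih =>
      intro hi
      have hi' : i < k := hi
      have e0 := ih hi'.le
      have e1 := expand hx (hr i hi'.le).1 (hr i hi'.le).2 (hr (i + 1) hi).2
      rw [← hcos i hi', ← hsin i hi'] at e1
      have e2 : crs x (r i) = Real.cos (ph i) • crs x (r 0) - Real.sin (ph i) • r 0 := by
        have e3 : crs x (r i) = Real.cos (ph i) • crs x (r 0)
            + Real.sin (ph i) • crs x (crs x (r 0)) := by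
          conv_lhs => rw [e0]
          ext j
          fin_cases j <;> simp [crs] <;> ring
        rw [e3, crs_crs_perp hx (hr 0 (Nat.zero_le _)).2, smul_neg, ← sub_eq_add_neg]
      rw [hsucc, Real.cos_add, Real.sin_add]
      rw [e2] at e1
      obtain ⟨al, hal⟩ : ∃ al, al = Real.arccos ⟪r i, r (i + 1)⟫ := ⟨_, rfl⟩
      rw [← hal] at e1 ⊢
      obtain ⟨ri, hri⟩ : ∃ ri, ri = r i := ⟨_, rfl⟩
      rw [← hri] at e0 e1
      rw [e1, e0]
      module
end Pool.Agent.Helper30.N9
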