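import Pool.Agent.Helper30.N9.Sheet2

/-! MP_9b91d1_co: row A5 (helper93). -/

open scoped RealInnerProductSpace Topology

namespace Pool.Agent.Helper30.N9

open PlaneGraph

namespace PlaneGraph

variable {V : Type} [Fintype V] [DecidableEq V] {M : PlaneGraph V}

theorem mem_bd93 {T : Set M.Face} {d : M.G.Dart} : d ∈ M.bd T ↔ M.fc d ∈ T ∧ M.fc d.symm ∉ T := by
  unfold bd
  simp

/-- If some dart at the start of `d` has its left face outside `T` and `d` has its left face in
`T`, then some dart at the start of `d` is a boundary dart. -/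
theorem exists_bd_at (T : Set M.Face) {d e : M.G.Dart} (hd : M.fc d ∈ T) (he : M.fc e ∉ T)
    (hde : d.fst = e.fst) : ∃ f ∈ M.bd T, f.fst = d.fst := by
  by_contra hcon
  push Not at hcon
  have hstep : ∀ f : M.G.Dart, f.fst = d.fst → M.fc f ∈ T →
      (M.rot f).fst = d.fst ∧ M.fc (M.rot f) ∈ T := by
    intro f hf hfT
    rw [M.rot_eq]
    refine ⟨?_, ?_⟩
    · rw [M.nxt_fst]; exact hf
    · rw [M.fc_nxt]
      by_contra hno
      exact hcon f (mem_bd93.mpr ⟨hfT, hno⟩) hf
  have hall : ∀ n : ℕ, ((M.rot ^ n) d).fst = d.fst ∧ M.fc ((M.rot ^ n) d) ∈ T := by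
    intro n
    induction n with
    | zero => exact ⟨rfl, hd⟩
    | succ n ih =>
      rw [pow_succ', Equiv.Perm.mul_apply]
      exact hstep _ ih.1 ih.2
  obtain ⟨n, hn⟩ := (M.trans d e hde).exists_nat_pow_eq
  have := (hall n).2
  rw [hn] at this
  exact he this

/-- sum over the darts of a set of faces -/
theorem sum_faces_finset {A : Type*} [AddCommMonoid A] (T : Finset M.Face) (f : M.G.Dart → A) :
    ∑ w ∈ T, ∑ e ∈ M.fdarts w, f e
      = ∑ e ∈ Finset.univ.filter (fun e : M.G.Dart => M.fc e ∈ T), f e := by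
  classical
  rw [← Finset.sum_fiberwise_of_maps_to (s := Finset.univ.filter (fun e : M.G.Dart => M.fc e ∈ T))
    (t := T) (g := M.fc) (fun e he => (Finset.mem_filter.mp he).2)]
  apply Finset.sum_congr rfl
  intro w hw
  apply Finset.sum_congr _ (fun _ _ => rfl)
  ext e
  rw [mem_fdarts, Finset.mem_filter, Finset.mem_filter]
  constructor
  · intro h
    exact ⟨⟨Finset.mem_univ _, by rw [h]; exact hw⟩, h⟩
  · intro h
    exact h.2

/-- inner darts cancel -/
theorem sum_inner_cancel (T : Finset M.Face) (f : M.G.Dart → ℝ)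
    (hf : ∀ d : M.G.Dart, M.fc d ∈ T → M.fc d.symm ∈ T → f d.symm = - f d) :
    ∑ w ∈ T, ∑ e ∈ M.fdarts w, f e = ∑ e ∈ M.bd (T : Set M.Face), f e := by
  classical
  rw [sum_faces_finset]
  rw [← Finset.sum_filter_add_sum_filter_not
    (Finset.univ.filter (fun e : M.G.Dart => M.fc e ∈ T)) (fun e => M.fc e.symm ∈ T)]
  have h0 : ∑ e ∈ (Finset.univ.filter (fun e : M.G.Dart => M.fc e ∈ T)).filter
      (fun e => M.fc e.symm ∈ T), f e = 0 := by
    have h1 : ∑ e ∈ (Finset.univ.filter (fun e : M.G.Dart => M.fc e ∈ T)).filter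
        (fun e => M.fc e.symm ∈ T), f e
        = ∑ e ∈ (Finset.univ.filter (fun e : M.G.Dart => M.fc e ∈ T)).filter
        (fun e => M.fc e.symm ∈ T), f e.symm := by
      refine Finset.sum_bij' (fun d _ => d.symm) (fun d _ => d.symm) ?_ ?_ ?_ ?_ ?_
      · intro d hd
        simp only [Finset.mem_filter, Finset.mem_univ, true_and] at hd ⊢
        exact ⟨hd.2, by rw [SimpleGraph.Dart.symm_symm]; exact hd.1⟩
      · intro d hd
        simp only [Finset.mem_filter, Finset.mem_univ, true_and] at hd ⊢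
        exact ⟨hd.2, by rw [SimpleGraph.Dart.symm_symm]; exact hd.1⟩
      · intro d _
        exact SimpleGraph.Dart.symm_symm d
      · intro d _
        exact SimpleGraph.Dart.symm_symm d
      · intro d _
        rw [SimpleGraph.Dart.symm_symm]
    have h2 : ∑ e ∈ (Finset.univ.filter (fun e : M.G.Dart => M.fc e ∈ T)).filter
        (fun e => M.fc e.symm ∈ T), f e.symm
        = - ∑ e ∈ (Finset.univ.filter (fun e : M.G.Dart => M.fc e ∈ T)).filter
        (fun e => M.fc e.symm ∈ T), f e := by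
      rw [← Finset.sum_neg_distrib]
      apply Finset.sum_congr rfl
      intro d hd
      simp only [Finset.mem_filter, Finset.mem_univ, true_and] at hd
      exact hf d hd.1 hd.2
    linarith
  rw [h0, zero_add]
  apply Finset.sum_congr _ (fun _ _ => rfl)
  ext d
  rw [mem_bd93]
  simp only [Finset.mem_filter, Finset.mem_univ, true_and, Finset.mem_coe]

end PlaneGraph

theorem st_A5 : ST_A5 := by
  intro V _ _ M q h T g hG hg hv
  have hq := hG.inC
  have hpos : ∀ d : M.G.Dart, M.fc d ∈ T → 0 < ⟪g, q d.fst⟫ := by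
    intro d hd
    obtain ⟨e, he, heT⟩ := hv d.fst
    obtain ⟨f, hf, hfd⟩ := exists_bd_at (T : Set M.Face) (d := d) (e := e)
      (Finset.mem_coe.mpr hd) (fun h' => heT (Finset.mem_coe.mp h')) he.symm
    have := (hg.2 f hf).1
    simp only [ga] at this
    rw [hfd] at this
    exact this
  have hpos2 : ∀ d : M.G.Dart, M.fc d ∈ T → 0 < ⟪g, q d.snd⟫ := by
    intro d hd
    have := hpos (M.nxt d) (by rw [M.fc_nxt]; exact hd)
    rwa [M.nxt_fst] at this
  have h1 : ∀ w ∈ T, SA (M.fdarts w) (M.ga q) (M.gb q) (h w)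
      = SA (M.fdarts w) (M.ga q) (M.gb q) g := by
    intro w hw
    apply (hq.chain w).centre_indep (hG.cen w)
    refine ⟨hg.1, fun i hi => ?_⟩
    rw [mem_fdarts] at hi
    exact ⟨hpos i (by rw [hi]; exact hw), hpos2 i (by rw [hi]; exact hw)⟩
  rw [Finset.sum_congr rfl h1]
  unfold SA
  apply sum_inner_cancel
  intro d hd _
  simp only [ga, gb]
  exact Om_swap (slit_of_pos hg.1 (hq.unit _) (hq.unit _) (hq.q_ne d) (hq.ne_neg d)
    (hpos d hd) (hpos2 d hd))

end Pool.Agent.Helper30.N9
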