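import Pool.Agent.Helper24.N9.Deg1
import Pool.Agent.Helper97.N9.Flip

/-! MP_9b91d1_co: row REG1 (helper93). -/

open scoped RealInnerProductSpace Topology

namespace Pool.Agent.Helper30.N9

open PlaneGraph

namespace H93

variable {V : Type} [Fintype V] [DecidableEq V] {M : PlaneGraph V}

/-- the total winding number of a set of faces off the drawing -/
theorem sum_FW_T {q : V → E3} (hq : M.InC q) (h : M.Face → E3) (T : Finset M.Face) {z : E3}
    (hz : ‖z‖ = 1) (ho : M.OffAll q z) :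
    ∑ w ∈ T, M.FW q h w z = (∑ w ∈ T, SA (M.fdarts w) (M.ga q) (M.gb q) (h w)
      - SA (M.bd (T : Set M.Face)) (M.ga q) (M.gb q) (-z)) / (4 * Real.pi) := by
  unfold FW W
  rw [← Finset.sum_div, Finset.sum_sub_distrib, hq.flip_SA T hz ho]

theorem sum_FW_one {q : V → E3} {h : M.Face → E3} (hS : M.Std q h) (T : Finset M.Face) {z : E3}
    (hz : ‖z‖ = 1) (ho : M.OffAll q z) :
    ∑ w ∈ T, M.FW q h w z = 1 ↔ ∃ w ∈ T, M.FW q h w z = 1 := by
  obtain ⟨w0, hw0, hw⟩ := tiling hS.per hS.c3 hS.inc hS.cen hz ho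
  constructor
  · intro hsum
    by_contra hcon
    push Not at hcon
    have h0 : ∑ w ∈ T, M.FW q h w z = 0 := by
      apply Finset.sum_eq_zero
      intro w hwT
      by_cases hww : w = w0
      · exact absurd hw0 (hww ▸ hcon w hwT)
      · exact hw w hww
    rw [h0] at hsum
    norm_num at hsum
  · rintro ⟨w, hwT, hw1⟩
    have hww : w = w0 := by
      by_contra hne
      rw [hw w hne] at hw1
      norm_num at hw1
    rw [Finset.sum_eq_single_of_mem w hwT]
    · exact hw1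
    · intro w' _ hw'
      exact hw w' (fun h' => hw' (h'.trans hww.symm))

end H93

open H93 in
theorem st_REG1 : ST_REG1 := by
  classical
  intro V _ _ M q h hS T U hU h0 hoff y hy y' hy' ho' hcov
  have hq := hS.inc
  obtain ⟨T', hT'⟩ : ∃ T' : Finset M.Face, T' = Finset.univ.filter T := ⟨_, rfl⟩
  have hmem : ∀ w, w ∈ T' ↔ T w := by
    intro w
    rw [hT', Finset.mem_filter]
    exact ⟨fun h => h.2, fun h => ⟨Finset.mem_univ _, h⟩⟩
  obtain ⟨hz, ho, w, hTw, hw⟩ := hcov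
  have hz' : ‖nrm y'‖ = 1 := norm_nrm (h0 y' hy')
  have h1 : ∑ w ∈ T', M.FW q h w (nrm y) = 1 :=
    (sum_FW_one hS T' hz ho).mpr ⟨w, (hmem w).mpr hTw, hw⟩
  have h2 := (hq.flip_chain T').constN hU h0 (fun x hx d hd => by
    rw [flip_mem_bd, Finset.mem_coe, Finset.mem_coe, hmem, hmem] at hd
    exact hoff x hx d hd) hy hy'
  have h3 : ∑ w ∈ T', M.FW q h w (nrm y') = 1 := by
    rw [sum_FW_T hq h T' hz ho] at h1
    rw [sum_FW_T hq h T' hz' ho', ← h2]
    exact h1
  obtain ⟨w', hw'T, hw'⟩ := (sum_FW_one hS T' hz' ho').mp h3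
  exact ⟨hz', ho', w', (hmem w').mp hw'T, hw'⟩

end Pool.Agent.Helper30.N9
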