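import Pool.Agent.Helper24.N9.Deg1

/-! MP_9b91d1_co: row CLS (helper93). -/

open scoped RealInnerProductSpace Topology

namespace Pool.Agent.Helper30.N9

open PlaneGraph

theorem st_CLS : ST_CLS := by
  intro V _ _ M p om hp hne
  by_cases hA : ∀ y, (∀ d, om d ≠ 0 → det3 (p d.fst) (p d.snd) y = 0) → y = 0
  · left; exact hA
  right
  push Not at hA
  obtain ⟨y, hy, hy0⟩ := hA
  have hpos : ∀ d : M.G.Dart, 0 < ⟪crs (p d.fst) (p d.snd), crs (p d.fst) (p d.snd)⟫ :=
    fun d => crs_pos (hp.unit _) (hp.unit _) (hp.q_ne d) (hp.ne_neg d)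
  by_cases hB : ∃ d e, om d ≠ 0 ∧ om e ≠ 0 ∧
      crs (crs (p d.fst) (p d.snd)) (crs (p e.fst) (p e.snd)) ≠ 0
  · left
    refine ⟨nrm y, norm_nrm hy0, fun d hd => ?_, hB⟩
    rw [← det3_rot, det3_nrm, hy d hd, mul_zero]
  · right
    push Not at hB
    obtain ⟨d0, hd0⟩ := hne
    obtain ⟨u, hu⟩ : ∃ u, u = crs (p d0.fst) (p d0.snd) := ⟨_, rfl⟩
    have hu0 : u ≠ 0 := by
      intro h0
      have h1 := hpos d0
      rw [← hu, h0, inner_zero_left] at h1
      exact lt_irrefl _ h1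
    have key : ∀ d, om d ≠ 0 → ∀ x : E3, ⟪crs (p d.fst) (p d.snd), x⟫ = 0 →
        ⟪nrm u, x⟫ = 0 := by
      intro d hd x hx
      have h1 := hB d0 d hd0 hd
      rw [← hu] at h1
      obtain ⟨v, hv⟩ : ∃ v, v = crs (p d.fst) (p d.snd) := ⟨_, rfl⟩
      have hvp := hpos d
      rw [← hv] at h1 hx hvp
      have h2 : ⟪v, v⟫ * ⟪u, x⟫ = ⟪u, v⟫ * ⟪v, x⟫ + det3 v (crs u v) x := by
        simp only [inner_def, det3]
        simp [crs]
        ring
      have h3 : det3 v (crs u v) x = 0 := by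
        rw [h1]
        simp [det3]
      rw [hx, h3, mul_zero, add_zero] at h2
      unfold nrm
      rw [real_inner_smul_left]
      rcases mul_eq_zero.mp h2 with h4 | h4
      · exact absurd h4 hvp.ne'
      · rw [h4, mul_zero]
    refine ⟨nrm u, norm_nrm hu0, fun d hd => ⟨key d hd _ ?_, key d hd _ ?_⟩⟩
    · rw [crs_inner]; exact det3_self_left _ _
    · rw [crs_inner]; exact det3_self_right _ _

end Pool.Agent.Helper30.N9
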