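import Pool.Agent.Helper24.N9.Deg2
import Pool.Agent.Helper93.N9.Rays

/-! MP_9b91d1_co: row GAP1 (helper93). -/

open scoped RealInnerProductSpace Topology

namespace Pool.Agent.Helper30.N9

open PlaneGraph

namespace H93

theorem crs_crs_axis (a u v : E3) : crs (crs a u) (crs a v) = det3 a u v • a := by
  ext i
  fin_cases i <;> simp [crs, det3] <;> ring

theorem crs_comb2 (a r : E3) (c1 s1 c2 s2 : ℝ) :
    crs (c1 • r + s1 • a) (c2 • r + s2 • a) = (s1 * c2 - c1 * s2) • crs a r := by
  ext i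
  fin_cases i <;> simp [crs] <;> ring

theorem crs_smul_smul (x y : ℝ) (u v : E3) : crs (x • u) (y • v) = (x * y) • crs u v := by
  ext i
  fin_cases i <;> simp [crs] <;> ring

theorem det3_merid (a r v : E3) (c s : ℝ) : det3 a (c • r + s • a) v = c * det3 a r v := by
  simp only [det3, PiLp.add_apply, PiLp.smul_apply, smul_eq_mul]
  ring

section
variable {V : Type} [Fintype V] [DecidableEq V] {M : PlaneGraph V} {L : Type} {p : V → E3}
  {a : E3} {l : M.Face → L} {s t : V} {k : ℕ} {th : ℕ → ℝ} {r : ℕ → E3} {lam : ℕ → L}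

theorem FanL.mono (hL : M.FanL p a l s t k th r lam) {i j : ℕ} (hij : i ≤ j) (hj : j ≤ k) :
    th i ≤ th j := by
  induction j, hij using Nat.le_induction with
  | base => exact le_refl _
  | succ j hij ih => exact (ih (by omega)).trans (hL.thl j (by omega)).le

theorem FanL.nonneg (hL : M.FanL p a l s t k th r lam) {j : ℕ} (hj : j ≤ k) : 0 ≤ th j := by
  rw [← hL.th0]
  exact FanL.mono hL (Nat.zero_le _) hj

theorem FanL.le_two (hL : M.FanL p a l s t k th r lam) {j : ℕ} (hj : j ≤ k) :
    th j ≤ 2 * Real.pi := by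
  rw [← hL.thk]
  exact FanL.mono hL hj (le_refl _)

theorem FanL.two_le (hL : M.FanL p a l s t k th r lam) : 2 ≤ k := by
  have hp := Real.pi_pos
  by_contra hcon
  have h1 : k = 0 ∨ k = 1 := by omega
  rcases h1 with h1 | h1
  · have h2 := hL.thk
    rw [h1, hL.th0] at h2
    linarith
  · have h2 := hL.thk
    have h3 := hL.thp 0 (by omega)
    rw [h1] at h2
    rw [hL.th0, zero_add, h2] at h3
    linarith

theorem FanL.lam_ne (hL : M.FanL p a l s t k th r lam) {i : ℕ} (hi : i < k) :
    lam (i + 1) ≠ lam i := by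
  have h2 := FanL.two_le hL
  intro h
  by_cases h1 : i + 1 < k
  · have := hL.lami _ h1 _ hi h
    omega
  · have h3 : i + 1 = k := by omega
    rw [h3, hL.lamk] at h
    have := hL.lami _ (by omega) _ hi h
    omega

/-- triple products of the meridians -/
theorem FanL.det_rr (ha : ‖a‖ = 1) (hL : M.FanL p a l s t k th r lam) {i j : ℕ} (hi : i ≤ k)
    (hj : j ≤ k) : det3 a (r i) (r j) = Real.sin (th j - th i) := by
  have h1 := crs_inner_self a (r 0)
  rw [inner_self_one ha, inner_self_one hL.r0, hL.ar0] at h1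
  have h2 : ∀ x y x' y' : ℝ, det3 a (x • r 0 + y • crs a (r 0)) (x' • r 0 + y' • crs a (r 0))
      = (x * y' - y * x') * ⟪crs a (r 0), crs a (r 0)⟫ := by
    intro x y x' y'
    rw [crs_inner]
    simp only [det3, PiLp.add_apply, PiLp.smul_apply, smul_eq_mul]
    ring
  rw [hL.rr i hi, hL.rr j hj, h2, h1, Real.sin_sub]
  ring

/-- inner products of the meridians -/
theorem FanL.inner_rr (ha : ‖a‖ = 1) (hL : M.FanL p a l s t k th r lam) {i j : ℕ} (hi : i ≤ k)
    (hj : j ≤ k) : ⟪r i, r j⟫ = Real.cos (th j - th i) := by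
  have h1 := crs_inner_self a (r 0)
  rw [inner_self_one ha, inner_self_one hL.r0, hL.ar0] at h1
  have h3 : ⟪r 0, crs a (r 0)⟫ = 0 := by
    rw [real_inner_comm, crs_inner]; simp only [det3]; ring
  have h4 : ⟪crs a (r 0), r 0⟫ = 0 := by
    rw [crs_inner]; simp only [det3]; ring
  rw [hL.rr i hi, hL.rr j hj, inner_add_left, inner_add_right, inner_add_right,
    real_inner_smul_left, real_inner_smul_left, real_inner_smul_left, real_inner_smul_left,
    real_inner_smul_right, real_inner_smul_right, real_inner_smul_right, real_inner_smul_right,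
    h1, h3, h4, inner_self_one hL.r0, Real.cos_sub]
  ring

end

end H93

open H93 in
theorem st_GAP1 : ST_GAP1 := by
  intro V _ _ M L p h a l s t k th r lam om hS hF hL hW hEq hE0 hne i hi
  have hp := Real.pi_pos
  have ha := hF.ua
  by_contra hcon
  push Not at hcon
  have hle : th (i + 1) ≤ 2 * Real.pi := FanL.le_two hL (by omega)
  have hthi : th i ≤ Real.pi := by linarith
  have hsign : ∀ j ≤ k, 0 ≤ det3 a (r j) (r i) := by
    intro j hj
    rw [FanL.det_rr ha hL hj hi.le]
    by_cases hji : j ≤ i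
    · have h1 := FanL.mono hL hji hi.le
      have h2 := FanL.nonneg hL hj
      exact Real.sin_nonneg_of_nonneg_of_le_pi (by linarith) (by linarith)
    · have h1 := FanL.mono hL (show i + 1 ≤ j by omega) hj
      have h2 := FanL.le_two hL hj
      have h3 := FanL.nonneg hL hi.le
      rw [← Real.sin_add_two_pi]
      exact Real.sin_nonneg_of_nonneg_of_le_pi (by linarith) (by linarith)
  -- all stressed darts at s are orthogonal to crs a (r i)
  have hterm : ∀ d : M.G.Dart, d.fst = s → om d ≠ 0 → ∃ j < k, ∃ c : ℝ, 0 ≤ c ∧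
      p d.snd = c • r (j + 1) + ⟪a, p d.snd⟫ • a ∧
      ⟪crs (p d.fst) (p d.snd), r i⟫ = c * det3 a (r (j + 1)) (r i) := by
    intro d hd hod
    obtain ⟨j, hj, _, ⟨c, hc, hc2⟩, _⟩ := hL.ray d ((hE0 d).mpr hod)
    refine ⟨j, hj, c, hc, hc2, ?_⟩
    rw [crs_inner, hd, hF.ps]
    conv_lhs => rw [hc2]
    exact det3_merid a _ _ _ _
  have hsum : ∑ d ∈ Finset.univ.filter (fun d : M.G.Dart => d.fst = s),
      om d * ⟪crs (p d.fst) (p d.snd), r i⟫ = 0 := by
    have h1 := hEq s
    unfold EqAt at h1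
    have h2 := congrArg (fun x => ⟪x, r i⟫) h1
    simp only [sum_inner, real_inner_smul_left, inner_zero_left] at h2
    exact h2
  have hzero : ∀ d : M.G.Dart, d.fst = s → om d ≠ 0 →
      ⟪crs (p d.fst) (p d.snd), r i⟫ = 0 := by
    intro d hd hod
    have h1 := (Finset.sum_eq_zero_iff_of_nonneg (fun d hd => by
      rw [Finset.mem_filter] at hd
      by_cases h0 : om d = 0
      · rw [h0, zero_mul]
      · obtain ⟨j, hj, c, hc, _, hc2⟩ := hterm d hd.2 h0
        rw [hc2]
        exact mul_nonneg (hW.nonneg d) (mul_nonneg hc (hsign _ (by omega))))).mp hsum d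
        (Finset.mem_filter.mpr ⟨Finset.mem_univ _, hd⟩)
    rcases mul_eq_zero.mp h1 with h2 | h2
    · exact absurd h2 hod
    · exact h2
  have hall : ∀ j < k, det3 a (r (j + 1)) (r i) = 0 := by
    intro j hj
    obtain ⟨d, hd, ⟨c, hc, hc2⟩, hd1, hd2⟩ := hL.top j hj
    have hE : M.E0 l d := by
      unfold E0
      rw [hd1, hd2]
      exact FanL.lam_ne hL hj
    have h1 := hzero d hd ((hE0 d).mp hE)
    rw [crs_inner, hd, hF.ps, hc2, det3_merid] at h1
    rcases mul_eq_zero.mp h1 with h2 | h2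
    · exfalso
      rw [h2, zero_smul, zero_add] at hc2
      have hn := hS.inc.unit d.snd
      have h3 : ⟪a, p d.snd⟫ ^ 2 = 1 := by
        have h4 : ⟪p d.snd, p d.snd⟫ = 1 := inner_self_one hn
        rw [hc2, real_inner_smul_left, real_inner_smul_right, inner_self_one ha] at h4
        rw [← h4]; ring
      have h5 : ⟪a, p d.snd⟫ = 1 ∨ ⟪a, p d.snd⟫ = -1 := by
        have h6 : (⟪a, p d.snd⟫ - 1) * (⟪a, p d.snd⟫ + 1) = 0 := by linear_combination h3
        rcases mul_eq_zero.mp h6 with h | h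
        · left; linarith
        · right; linarith
      rcases h5 with h5 | h5
      · rw [h5, one_smul, ← hF.ps, ← hd] at hc2
        exact d.adj.ne (hS.inc.inj hc2.symm)
      · rw [h5, ← hF.ps, ← hd] at hc2
        apply hS.inc.ne_neg d
        rw [hc2]
        simp
    · exact h2
  have hall2 : ∀ j < k, ∀ j' < k, det3 a (r (j + 1)) (r (j' + 1)) = 0 := by
    intro j hj j' hj'
    have h1 := hall j hj
    have h2 := hall j' hj'
    rw [FanL.det_rr ha hL (by omega) hi.le] at h1 h2
    rw [FanL.det_rr ha hL (by omega) (by omega)]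
    have h3 : th (j' + 1) - th (j + 1) = (th i - th (j + 1)) - (th i - th (j' + 1)) := by ring
    rw [h3, Real.sin_sub, h1, h2]
    ring
  obtain ⟨d, e, hd, he, hde⟩ := hne
  apply hde
  obtain ⟨j, hj, ⟨c1, _, e1⟩, ⟨c2, _, e2⟩, _⟩ := hL.ray d ((hE0 d).mpr hd)
  obtain ⟨j', hj', ⟨c3, _, e3⟩, ⟨c4, _, e4⟩, _⟩ := hL.ray e ((hE0 e).mpr he)
  rw [e1, e2, e3, e4, crs_comb2, crs_comb2, crs_smul_smul, crs_crs_axis, hall2 j hj j' hj',
    zero_smul, smul_zero]

end Pool.Agent.Helper30.N9
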