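import Pool.Agent.Helper93.N9.Rays

/-! MP_9b91d1_co: rotations from frames (helper93). -/

open scoped RealInnerProductSpace Topology

namespace Pool.Agent.Helper30.N9

namespace H93

theorem crs_unit {a r : E3} (ha : ‖a‖ = 1) (hr : ‖r‖ = 1) (h : ⟪a, r⟫ = 0) :
    ⟪crs a r, crs a r⟫ = 1 := by
  rw [crs_inner_self, inner_self_one ha, inner_self_one hr, h]
  norm_num

/-- the linear map with columns a, r, a × r -/
noncomputable def frameL (a r : E3) : E3 →ₗ[ℝ] E3 where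
  toFun v := v 0 • a + v 1 • r + v 2 • crs a r
  map_add' v w := by
    simp only [PiLp.add_apply]
    module
  map_smul' c v := by
    simp only [PiLp.smul_apply, smul_eq_mul, RingHom.id_apply]
    module

theorem frameL_apply (a r v : E3) :
    frameL a r v = v 0 • a + v 1 • r + v 2 • crs a r := rfl

theorem frameL_inner {a r : E3} (ha : ‖a‖ = 1) (hr : ‖r‖ = 1) (h : ⟪a, r⟫ = 0) (v : E3) :
    ‖frameL a r v‖ = ‖v‖ := by
  have h1 : ‖frameL a r v‖ ^ 2 = ‖v‖ ^ 2 := by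
    rw [← real_inner_self_eq_norm_sq, ← real_inner_self_eq_norm_sq, frameL_apply]
    have e1 : ⟪a, crs a r⟫ = 0 := by
      rw [real_inner_comm, crs_inner]; simp only [det3]; ring
    have e2 : ⟪r, crs a r⟫ = 0 := by
      rw [real_inner_comm, crs_inner]; simp only [det3]; ring
    have e3 : ⟪crs a r, a⟫ = 0 := by rw [real_inner_comm]; exact e1
    have e4 : ⟪crs a r, r⟫ = 0 := by rw [real_inner_comm]; exact e2
    have e5 : ⟪r, a⟫ = 0 := by rw [real_inner_comm]; exact h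
    simp only [inner_add_left, inner_add_right, real_inner_smul_left, real_inner_smul_right,
      e1, e2, e3, e4, e5, h, crs_unit ha hr h, inner_self_one ha, inner_self_one hr]
    rw [inner_def v v]
    ring
  have h2 : 0 ≤ ‖frameL a r v‖ := norm_nonneg _
  have h3 : 0 ≤ ‖v‖ := norm_nonneg _
  nlinarith [sq_nonneg (‖frameL a r v‖ - ‖v‖), sq_nonneg (‖frameL a r v‖ + ‖v‖)]

/-- the isometry with columns a, r, a × r -/
noncomputable def frameI {a r : E3} (ha : ‖a‖ = 1) (hr : ‖r‖ = 1) (h : ⟪a, r⟫ = 0) :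
    E3 ≃ₗᵢ[ℝ] E3 :=
  LinearIsometry.toLinearIsometryEquiv ⟨frameL a r, frameL_inner ha hr h⟩ rfl

theorem frameI_apply {a r : E3} (ha : ‖a‖ = 1) (hr : ‖r‖ = 1) (h : ⟪a, r⟫ = 0) (v : E3) :
    frameI ha hr h v = v 0 • a + v 1 • r + v 2 • crs a r := rfl

theorem frameI_det {a r : E3} (ha : ‖a‖ = 1) (hr : ‖r‖ = 1) (h : ⟪a, r⟫ = 0) :
    LinearMap.det ((frameI ha hr h).toLinearEquiv : E3 →ₗ[ℝ] E3) = 1 := by
  have h0 : ((frameI ha hr h).toLinearEquiv : E3 →ₗ[ℝ] E3) = frameL a r := rfl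
  rw [h0, ← LinearMap.det_toMatrix (EuclideanSpace.basisFun (Fin 3) ℝ).toBasis,
    Matrix.det_fin_three]
  simp only [LinearMap.toMatrix_apply]
  simp [frameL_apply]
  have h1 := crs_unit ha hr h
  rw [inner_def] at h1
  simp only [crs] at h1 ⊢
  simp at h1 ⊢
  linear_combination h1

/-- Rotation from one frame to another one. -/
theorem exists_rot {a r x u : E3} (ha : ‖a‖ = 1) (hr : ‖r‖ = 1) (h : ⟪a, r⟫ = 0)
    (hx : ‖x‖ = 1) (hu : ‖u‖ = 1) (h' : ⟪x, u⟫ = 0) :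
    ∃ R : E3 ≃ₗᵢ[ℝ] E3, LinearMap.det (R.toLinearEquiv : E3 →ₗ[ℝ] E3) = 1 ∧
      R a = x ∧ R r = u ∧ R (crs a r) = crs x u := by
  obtain ⟨A, hA⟩ : ∃ A, A = frameI ha hr h := ⟨_, rfl⟩
  obtain ⟨B, hB⟩ : ∃ B, B = frameI hx hu h' := ⟨_, rfl⟩
  have e1 : ∀ v, A v = v 0 • a + v 1 • r + v 2 • crs a r := by
    intro v; rw [hA]; exact frameI_apply ha hr h v
  have e2 : ∀ v, B v = v 0 • x + v 1 • u + v 2 • crs x u := by
    intro v; rw [hB]; exact frameI_apply hx hu h' v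
  have a0 : A !₂[1, 0, 0] = a := by rw [e1]; simp
  have a1 : A !₂[0, 1, 0] = r := by rw [e1]; simp
  have a2 : A !₂[0, 0, 1] = crs a r := by rw [e1]; simp
  have b0 : B !₂[1, 0, 0] = x := by rw [e2]; simp
  have b1 : B !₂[0, 1, 0] = u := by rw [e2]; simp
  have b2 : B !₂[0, 0, 1] = crs x u := by rw [e2]; simp
  refine ⟨A.symm.trans B, ?_, ?_, ?_, ?_⟩
  · have d1 : LinearMap.det (A.toLinearEquiv : E3 →ₗ[ℝ] E3) = 1 := by
      rw [hA]; exact frameI_det ha hr h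
    have d2 : LinearMap.det (B.toLinearEquiv : E3 →ₗ[ℝ] E3) = 1 := by
      rw [hB]; exact frameI_det hx hu h'
    have d3 := LinearEquiv.det_mul_det_symm A.toLinearEquiv
    rw [d1, one_mul] at d3
    have d4 : ((A.symm.trans B).toLinearEquiv : E3 →ₗ[ℝ] E3)
        = (B.toLinearEquiv : E3 →ₗ[ℝ] E3) ∘ₗ (A.toLinearEquiv.symm : E3 →ₗ[ℝ] E3) := rfl
    rw [d4, LinearMap.det_comp, d2, d3, one_mul]
  · rw [LinearIsometryEquiv.trans_apply, ← b0]
    congr 1
    rw [LinearIsometryEquiv.symm_apply_eq]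
    exact a0.symm
  · rw [LinearIsometryEquiv.trans_apply, ← b1]
    congr 1
    rw [LinearIsometryEquiv.symm_apply_eq]
    exact a1.symm
  · rw [LinearIsometryEquiv.trans_apply, ← b2]
    congr 1
    rw [LinearIsometryEquiv.symm_apply_eq]
    exact a2.symm

end H93

end Pool.Agent.Helper30.N9
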