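import Pool.Agent.Helper24.N9.Deg2
import Pool.Agent.Helper93.N9.Gap1
import Pool.Agent.Helper93.N9.Reg1
import Pool.Agent.Helper93.N9.Rot

/-! MP_9b91d1_co: row FANA (helper93). -/

open scoped RealInnerProductSpace Topology

namespace Pool.Agent.Helper30.N9

open PlaneGraph

namespace H93

theorem abs_inner_le {a b : E3} (ha : ‖a‖ = 1) (hb : ‖b‖ = 1) :
    -1 ≤ ⟪a, b⟫ ∧ ⟪a, b⟫ ≤ 1 := by
  have h1 := abs_real_inner_le_norm a b
  rw [ha, hb, one_mul, abs_le] at h1
  exact h1

theorem inner_ge_of_ang {a b c d : E3} (ha : ‖a‖ = 1) (hb : ‖b‖ = 1) (hc : ‖c‖ = 1)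
    (hd : ‖d‖ = 1) (h : ang a b ≤ ang c d) : ⟪c, d⟫ ≤ ⟪a, b⟫ := by
  unfold ang at h
  have h1 := Real.cos_le_cos_of_nonneg_of_le_pi (Real.arccos_nonneg _) (Real.arccos_le_pi _) h
  obtain ⟨a1, a2⟩ := abs_inner_le ha hb
  obtain ⟨c1, c2⟩ := abs_inner_le hc hd
  rwa [Real.cos_arccos a1 a2, Real.cos_arccos c1 c2] at h1

theorem convex_neg_half (m : E3) : Convex ℝ {y : E3 | ⟪m, y⟫ < 0} := by
  intro x hx y hy s t hs ht hst
  have hx' : ⟪m, x⟫ < 0 := hx
  have hy' : ⟪m, y⟫ < 0 := hy
  show ⟪m, s • x + t • y⟫ < 0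
  rw [inner_add_right, real_inner_smul_right, real_inner_smul_right]
  rcases hs.eq_or_lt with h | h
  · have : t = 1 := by linarith
    rw [← h, this]; linarith
  · have h1 : s * ⟪m, x⟫ < 0 := mul_neg_of_pos_of_neg h hx'
    have h2 : t * ⟪m, y⟫ ≤ 0 := mul_nonpos_of_nonneg_of_nonpos ht hy'.le
    linarith

section
variable {V : Type} [Fintype V] [DecidableEq V] {M : PlaneGraph V} {L : Type}

theorem E0_symm {l : M.Face → L} {d : M.G.Dart} (h : M.E0 l d) : M.E0 l d.symm := by
  unfold E0 at h ⊢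
  rw [SimpleGraph.Dart.symm_symm]
  exact h.symm

theorem onE_fst {l : M.Face → L} {d : M.G.Dart} (h : M.E0 l d) : M.OnE l d.fst := ⟨d, rfl, h⟩

theorem onE_snd {l : M.Face → L} {d : M.G.Dart} (h : M.E0 l d) : M.OnE l d.snd :=
  ⟨d.symm, rfl, E0_symm h⟩

/-- If the boundary of all labels is in a closed half space, then some label class covers the
opposite open half space. -/
theorem covN_of_half (hreg4 : ST_REG4) {q : V → E3} {h' : M.Face → E3} (hS : M.Std q h')
    {l : M.Face → L} {m : E3} (hm : m ≠ 0) (hpos : ∀ v, M.OnE l v → 0 ≤ ⟪m, q v⟫) :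
    ∃ w0 : M.Face, M.CovN q h' (fun w => l w = l w0) (-nrm m) := by
  have hq := hS.inc
  obtain ⟨U, hU⟩ : ∃ U : Set E3, U = {y | ⟪m, y⟫ < 0} := ⟨_, rfl⟩
  have hmU : ∀ y, y ∈ U ↔ ⟪m, y⟫ < 0 := by
    intro y; rw [hU]; exact Iff.rfl
  have hUo : IsOpen U := by
    rw [hU]
    exact isOpen_lt (by fun_prop) continuous_const
  have hUc : IsPreconnected U := by
    rw [hU]
    exact (convex_neg_half m).isPreconnected
  have hU0 : ∀ y ∈ U, y ≠ 0 := by
    intro y hy h0
    rw [hmU, h0, inner_zero_right] at hy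
    exact lt_irrefl _ hy
  have hmm : 0 < ⟪m, m⟫ := real_inner_self_pos.mpr hm
  have hmem : -nrm m ∈ U := by
    rw [hmU, inner_neg_right, inner_nrm]
    have h1 : 0 < ‖m‖⁻¹ := inv_pos.mpr (norm_pos_iff.mpr hm)
    have := mul_pos h1 hmm
    linarith
  obtain ⟨y0, hy0, hy00, hoff0, _⟩ := hreg4 V M q hq ∅ (by simp) U hUo ⟨_, hmem⟩
  obtain ⟨w0, hw0, _⟩ := tiling hS.per hS.c3 hq hS.cen (norm_nrm hy00) hoff0
  refine ⟨w0, ?_⟩
  have hcov : ∀ y' ∈ U, M.OffAll q (nrm y') → M.Cov q h' (fun w => l w = l w0) (nrm y') := by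
    intro y' hy' ho'
    refine st_REG1 V M q h' hS (fun w => l w = l w0) U hUc hU0 ?_ y0 hy0 y' hy' ho'
      ⟨norm_nrm hy00, hoff0, w0, rfl, hw0⟩
    intro y hy d hd harc
    have hE : M.E0 l d := by
      intro h1
      apply hd.2
      have h2 := hd.1
      show l (M.fc d.symm) = l w0
      rw [← h1]
      exact h2
    obtain ⟨_, s1, t1, hs1, ht1, hx⟩ := harc
    have h1 := hpos _ (onE_fst hE)
    have h2 := hpos _ (onE_snd hE)
    have h3 : 0 ≤ ⟪m, nrm y⟫ := by
      rw [hx, inner_add_right, real_inner_smul_right, real_inner_smul_right]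
      exact add_nonneg (mul_nonneg hs1 h1) (mul_nonneg ht1 h2)
    rw [hmU] at hy
    have hy0 : y ≠ 0 := by
      intro h0
      rw [h0, inner_zero_right] at hy
      exact lt_irrefl _ hy
    rw [inner_nrm] at h3
    have h4 : 0 < ‖y‖⁻¹ := inv_pos.mpr (norm_pos_iff.mpr hy0)
    have := mul_neg_of_pos_of_neg h4 hy
    linarith
  obtain ⟨δ, hδ, hb⟩ := Metric.isOpen_iff.mp hUo _ hmem
  exact ⟨δ, hδ, fun y hy => ⟨hU0 y (hb hy), fun ho => hcov y (hb hy) ho⟩⟩

end

end H93

open H93 in
theorem st_FANA (hreg4 : ST_REG4) (hCH : ST_CH) (hQR : ST_QR) (hOP1 : ST_OP1)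
    (hOP2 : ST_OP2) : ST_FANA := by
  intro V _ _ M L p q h h' a l s t k th r lam om hSp hSq hLM hle hF hL hsw hgap htq
  have hpi := Real.pi_pos
  have ha := hF.ua
  have hp := hSp.inc
  have hq := hSq.inc
  have hk2 := FanL.two_le hL
  -- Step 1
  have hopp : q t = - q s := by
    by_contra hcon
    have hm : q s + q t ≠ 0 := by
      intro h0
      apply hcon
      rw [eq_neg_iff_add_eq_zero, add_comm]
      exact h0
    have hpos : ∀ v, M.OnE l v → 0 ≤ ⟪q s + q t, q v⟫ := by
      intro v hv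
      obtain ⟨c1, c2⟩ := hCH V M L p q h a l s t hSp hq.unit hle hF v hv
      have e1 := inner_ge_of_ang (hq.unit s) (hq.unit v) ha (hp.unit v) c1
      have e2 := inner_ge_of_ang (hq.unit v) (hq.unit t) (hp.unit v) (by rwa [norm_neg]) c2
      rw [inner_neg_right, real_inner_comm] at e2
      rw [inner_add_left, real_inner_comm (q v) (q t)]
      linarith
    obtain ⟨w0, hw0⟩ := covN_of_half hreg4 hSq (l := l) hm hpos
    obtain ⟨i, hi, hlam⟩ := hL.lams w0
    rw [hlam] at hw0
    exact hOP1 V M L p q h h' a l s t k th r lam om hSp hSq hLM hle hF hL hsw i hi (hgap i hi)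
      (htq i hi) hcon hw0
  -- Step 2
  obtain ⟨rq, hrq1, hrqk, hrqne, hrq⟩ := hQR V M L p q a l s t k th r lam hp hq hle hF hL hopp
  have h2 : ∀ i < k, 0 < det3 (q s) (rq i) (rq (i + 1)) ∧ ⟪r i, r (i + 1)⟫
      ≤ ⟪rq i, rq (i + 1)⟫ := by
    intro i hi
    exact hOP2 V M L p q h h' a l s t k th r lam om hSp hSq hLM hle hF hL hsw i hi (hgap i hi)
      (htq i hi) hopp rq hrq1 hrqne hrqk hrq
  obtain ⟨ph, hph0, hph1, hph2⟩ := st_PL k th (q s) rq (hq.unit s) hL.th0
    (fun i hi => ⟨by have := hL.thl i hi; linarith, by have := hgap i hi; linarith⟩) hrq1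
    (fun i hi => ⟨(h2 i hi).1, by
      rw [← FanL.inner_rr ha hL hi.le (show i + 1 ≤ k from hi)]
      exact (h2 i hi).2⟩)
  have hphpos : ∀ j, 0 < j → j ≤ k → 0 < ph j := by
    intro j hj hjk
    induction j, hj using Nat.le_induction with
    | base =>
      have := (hph1 0 (by omega)).1
      rw [hph0] at this
      exact this
    | succ j hj ih =>
      have h1 := ih (by omega)
      have h3 := (hph1 j (by omega)).1
      linarith
  have hmono : ∀ j, j ≤ k → 0 ≤ th j - ph j := by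
    intro j
    induction j with
    | zero => intro _; rw [hL.th0, hph0, sub_zero]
    | succ j ih =>
      intro hj
      have h1 := ih (by omega)
      have h3 := (hph1 j (by omega)).2
      linarith
  have hphk : ph k = 2 * Real.pi := by
    have e1 := hph2 k (le_refl _)
    have e2 : ⟪rq 0, rq k⟫ = Real.cos (ph k) := by
      have e3 : ⟪rq 0, crs (q s) (rq 0)⟫ = 0 := by
        rw [real_inner_comm, crs_inner]; simp only [det3]; ring
      rw [e1, inner_add_right, real_inner_smul_right, real_inner_smul_right, e3,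
        inner_self_one (hrq1 0 (Nat.zero_le _)).1]
      ring
    rw [hrqk, inner_self_one (hrq1 0 (Nat.zero_le _)).1] at e2
    obtain ⟨n, hn⟩ := (Real.cos_eq_one_iff (ph k)).mp e2.symm
    have hlek : ph k ≤ 2 * Real.pi := by
      have := hmono k (le_refl _)
      rw [hL.thk] at this
      linarith
    have hposk := hphpos k (by omega) (le_refl _)
    have hn1 : n = 1 := by
      have b1 : (0 : ℝ) < n := by
        by_contra hno
        push Not at hno
        have : (n : ℝ) * (2 * Real.pi) ≤ 0 := mul_nonpos_of_nonpos_of_nonneg hno (by linarith)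
        linarith
      have b2 : (n : ℝ) ≤ 1 := by
        by_contra hno
        push Not at hno
        have : 1 * (2 * Real.pi) < (n : ℝ) * (2 * Real.pi) :=
          mul_lt_mul_of_pos_right hno (by linarith)
        linarith
      have b3 : (0 : ℤ) < n := by exact_mod_cast b1
      have b4 : n ≤ (1 : ℤ) := by exact_mod_cast b2
      omega
    rw [← hn, hn1]
    norm_num
  have hdown : ∀ j, j ≤ k → th j - ph j ≤ 0 := by
    intro j hj
    have key : ∀ n, j + n ≤ k → th j - ph j ≤ th (j + n) - ph (j + n) := by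
      intro n
      induction n with
      | zero => intro _; exact le_refl _
      | succ n ih =>
        intro hn
        have h1 := ih (by omega)
        have h3 := (hph1 (j + n) (by omega)).2
        have e : j + (n + 1) = j + n + 1 := by omega
        rw [e]
        linarith
    have h1 := key (k - j) (by omega)
    have e : j + (k - j) = k := by omega
    rw [e, hL.thk, hphk] at h1
    linarith
  have hphth : ∀ j, j ≤ k → ph j = th j := by
    intro j hj
    have h1 := hmono j hj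
    have h3 := hdown j hj
    linarith
  -- Step 3
  obtain ⟨R, hdet, hRa, hRr, hRc⟩ := exists_rot ha hL.r0 hL.ar0 (hq.unit s)
    (hrq1 0 (Nat.zero_le _)).1 (hrq1 0 (Nat.zero_le _)).2
  refine ⟨R, hdet, fun v hv => ?_⟩
  obtain ⟨d, hdv, hdE⟩ := hv
  obtain ⟨i, hi, ⟨c, hc, hpc⟩, _⟩ := hL.ray d hdE
  rw [hdv] at hpc
  have hRi : R (r (i + 1)) = rq (i + 1) := by
    rw [hL.rr (i + 1) hi, hph2 (i + 1) hi, hphth (i + 1) hi, map_add, map_smul, map_smul,
      hRr, hRc]
  rw [hrq (i + 1) hi v ⟨d, hdv, hdE⟩ c hc hpc]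
  conv_rhs => rw [hpc]
  rw [map_add, map_smul, map_smul, hRi, hRa]

end Pool.Agent.Helper30.N9
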