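import Pool.Agent.Helper93.N9.Scut

/-! MP_9b91d1_co: row RCUT (helper93). -/

open scoped RealInnerProductSpace Topology

namespace Pool.Agent.Helper30.N9

open PlaneGraph

open H93 in
theorem st_RCUT (hQR : ST_QR) (hSW : ST_SWING) (hNE : ST_NE0) (hTQ : ST_TQ)
    (hOP2 : ST_OP2) (hCUTL : ST_CUTL) (hMML : ST_MML) : ST_RCUT := by
  intro V _ _ M L p q h h' n y U l s t b hSp hSq hLM hle hEq hC hfix
  have hpi := Real.pi_pos
  have hF := hC.fan
  have hp := hSp.inc
  have hq := hSq.inc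
  have ha := hF.ua
  obtain ⟨k, th, r, lam, hL, hr0, hrk, hthk, hlk, hgap, hlb, hk2⟩ :=
    hCUTL V M L p h n y U l s t b hSp hEq hC
  obtain ⟨om, hsw⟩ := hSW V M L p y l s t hLM hF
    (hNE V M L p h y l s t (k + 1) th r lam hSp hF hL)
  have hnomer : ∀ i < k + 1, M.NoMer p y (fun w => l w = lam i) := by
    intro i hi
    apply hC.nomer
    obtain ⟨d, _, _, _, hd⟩ := hL.top i hi
    exact ⟨_, hd⟩
  have htq : ∀ i < k + 1, ∃ d, M.InD (fun w => l w = lam i) d ∧ om d ≠ 0 ∧
      det3 y (p d.fst) (p d.snd) ≠ 0 :=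
    hTQ V M L p h y l s t (k + 1) th r lam om hSp hF hL hsw hnomer
  have hUb : ∀ w, U w → ¬ (l w = b) := fun w hw hb => (hC.lb w).mp hb hw
  have hfix2 : ∀ d, M.Bd U d → q d.snd = p d.snd := by
    intro d hd
    obtain ⟨f, hf, hfd⟩ := bd_next hd
    rw [← hfd]
    exact hfix f hf
  -- the dart at s on the meridian 0
  obtain ⟨d0, hd0s, ⟨c0, hc0, hc02⟩, hd0l, hd0b⟩ := hL.top k (Nat.lt_succ_self k)
  rw [hL.lamk] at hd0l
  rw [hlk] at hd0b
  have hd0U : M.Bd U d0 := by
    refine ⟨?_, (hC.lb _).mp hd0b⟩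
    by_contra hno
    have := (hC.lb _).mpr hno
    rw [hd0l] at this
    exact hlb 0 (by omega) this
  have hE0 : ∀ d, M.Bd U d → M.E0 l d := by
    intro d hd h1
    have h2 : l (M.fc d.symm) = b := (hC.lb _).mpr hd.2
    exact hUb _ hd.1 (h1.trans h2)
  have hqs : q s = y := by
    have := hfix d0 hd0U
    rwa [hd0s, hF.ps] at this
  have hqt : q t = -y := by
    obtain ⟨d2, hd2t, _, hd2l, hd2b⟩ := hL.bot k (Nat.lt_succ_self k)
    rw [hL.lamk] at hd2l
    rw [hlk] at hd2b
    have hd2U : M.Bd U d2 := by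
      refine ⟨?_, (hC.lb _).mp hd2b⟩
      by_contra hno
      have := (hC.lb _).mpr hno
      rw [hd2l] at this
      exact hlb 0 (by omega) this
    have := hfix2 d2 hd2U
    rwa [hd2t, hF.pt] at this
  have hopp : q t = - q s := by rw [hqs, hqt]
  obtain ⟨rq, hrq1, hrqk, hrqne, hrq⟩ := hQR V M L p q y l s t (k + 1) th r lam hp hq hle hF hL
    hopp
  have h2 : ∀ i < k, 0 < det3 (q s) (rq i) (rq (i + 1)) ∧ ⟪r i, r (i + 1)⟫
      ≤ ⟪rq i, rq (i + 1)⟫ := by
    intro i hi
    exact hOP2 V M L p q h h' y l s t (k + 1) th r lam om hSp hSq hLM hle hF hL hsw i (by omega)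
      (hgap i hi) (htq i (by omega)) hopp rq hrq1 hrqne hrqk hrq
  obtain ⟨ph, hph0, hph1, hph2⟩ := st_PL k th (q s) rq (hq.unit s) hL.th0
    (fun i hi => ⟨by have := hL.thl i (by omega); linarith, by have := hgap i hi; linarith⟩)
    (fun i hi => hrq1 i (by omega))
    (fun i hi => ⟨(h2 i hi).1, by
      rw [← FanL.inner_rr ha hL (show i ≤ k + 1 by omega) (show i + 1 ≤ k + 1 by omega)]
      exact (h2 i hi).2⟩)
  obtain ⟨hphk, hph3⟩ := ph_facts (show 0 < k by omega) hL.th0 hph0 hph1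
  have hphk2 : ph k ≤ Real.pi := by
    have := (hph3 k (le_refl _)).1
    rw [hthk] at this
    linarith
  -- a vertex c r + e y with c nonzero determines the direction
  have hcne : ∀ d : M.G.Dart, d.fst = s → ∀ (c : ℝ) (u : E3), p d.snd = c • u
      + ⟪y, p d.snd⟫ • y → c ≠ 0 := by
    intro d hd c u hc h0
    rw [h0, zero_smul, zero_add] at hc
    have h5 := crs_pos (hp.unit d.fst) (hp.unit d.snd) (hp.q_ne d) (hp.ne_neg d)
    have h6 : crs (p d.fst) (p d.snd) = 0 := by
      rw [hd, hF.ps, hc]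
      ext j
      fin_cases j <;> simp [crs] <;> ring
    rw [h6, inner_zero_left] at h5
    exact lt_irrefl _ h5
  have hlast : r (k + 1) = r 0 := by
    rw [hL.rr (k + 1) (le_refl _), hL.thk, Real.cos_two_pi, Real.sin_two_pi, one_smul,
      zero_smul, add_zero]
  have hrq0 : rq 0 = r 0 := by
    have e1 := hrq (k + 1) (le_refl _) d0.snd (onE_snd (hE0 d0 hd0U)) c0 hc0 hc02
    rw [hfix2 d0 hd0U, hqs] at e1
    have e2 : c0 • r (k + 1) = c0 • rq (k + 1) := by
      have e3 := hc02.symm.trans e1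
      exact add_right_cancel e3
    have e4 := smul_right_injective E3 (hcne d0 hd0s c0 _ hc02) e2
    rw [← hrqk, ← hlast]
    exact e4.symm
  have hrqk' : rq k = r k := by
    obtain ⟨d1, hd1s, ⟨c, hc, hc2⟩, hd1l, hd1b⟩ := hL.top (k - 1) (by omega)
    have ek : k - 1 + 1 = k := by omega
    rw [ek] at hc2 hd1l
    rw [hlk] at hd1l
    have hd1U : M.Bd U d1.symm := by
      refine ⟨?_, ?_⟩
      · by_contra hno
        have := (hC.lb _).mpr hno
        rw [hd1b] at this
        exact hlb (k - 1) (by omega) this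
      · rw [SimpleGraph.Dart.symm_symm]
        exact (hC.lb _).mp hd1l
    have e0 : q d1.snd = p d1.snd := hfix _ hd1U
    have hE : M.E0 l d1 := by
      intro h0
      rw [hd1l, hd1b] at h0
      exact hlb (k - 1) (by omega) h0.symm
    have e1 := hrq k (by omega) d1.snd (onE_snd hE) c hc hc2
    rw [e0, hqs] at e1
    have e2 : c • r k = c • rq k := by
      have e3 := hc2.symm.trans e1
      exact add_right_cancel e3
    exact (smul_right_injective E3 (hcne d1 hd1s c _ hc2) e2).symm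
  obtain ⟨hu0, hx0⟩ := hrq1 0 (Nat.zero_le _)
  have hphkpi : ph k = Real.pi := by
    have e1 : ⟪rq 0, rq k⟫ = Real.cos (ph k) := by
      have e3 : ⟪rq 0, crs (q s) (rq 0)⟫ = 0 := by
        rw [real_inner_comm, crs_inner]; simp only [det3]; ring
      rw [hph2 k (le_refl _), inner_add_right, real_inner_smul_right, real_inner_smul_right, e3,
        inner_self_one hu0]
      ring
    have e2 : rq k = -rq 0 := by rw [hrqk', hrk, hrq0, hr0]
    rw [e2, inner_neg_right, inner_self_one hu0] at e1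
    have e4 : Real.arccos (Real.cos (ph k)) = ph k := Real.arccos_cos hphk.le hphk2
    rw [← e1, Real.arccos_neg_one] at e4
    exact e4.symm
  have hphth : ∀ j, j ≤ k → ph j = th j := by
    intro j hj
    have h3 := hph3 j hj
    rw [hthk, hphkpi] at h3
    linarith
  have hrqr : ∀ i, i ≤ k + 1 → rq i = r i := by
    intro i hi
    by_cases hik : i ≤ k
    · rw [hph2 i hik, hphth i hik, hrq0, hqs, ← hL.rr i hi]
    · have e : i = k + 1 := by omega
      rw [e, hrqk, hlast, hrq0]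
  have hall : ∀ v, M.OnE l v → q v = p v := by
    intro v hv
    obtain ⟨d, hdv, hdE⟩ := hv
    obtain ⟨i, hi, ⟨c, hc, hpc⟩, _⟩ := hL.ray d hdE
    rw [hdv] at hpc
    rw [hrq (i + 1) hi v ⟨d, hdv, hdE⟩ c hc hpc, hrqr (i + 1) hi, hqs]
    exact hpc.symm
  intro v hv
  obtain ⟨d, hdv, _, _⟩ := exists_third hSp.c3 v d0 d0
  have hUd : U (M.fc d) := hv d hdv
  obtain ⟨i, hi, hli⟩ := hL.lams (M.fc d)
  have hik : i < k := by
    by_contra hno
    have e : i = k := by omega
    rw [e, hlk] at hli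
    exact hUb _ hUd hli
  rw [← hdv]
  exact hMML V M L p q h y l s t (k + 1) th r lam hSp hLM hq.unit hle hF hL hall i hi
    (hgap i hik) (hnomer i hi) d hli

end Pool.Agent.Helper30.N9
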