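import Pool.Agent.Helper24.N9.Deg3
import Pool.Agent.Helper93.N9.Fana
import Pool.Agent.Helper93.N9.A5

/-! MP_9b91d1_co: row SCUT (helper93). -/

open scoped RealInnerProductSpace Topology

namespace Pool.Agent.Helper30.N9

open PlaneGraph

namespace H93

/-- facts on the angles of ST_PL -/
theorem ph_facts {k : ℕ} {th ph : ℕ → ℝ} (hk : 0 < k) (hth0 : th 0 = 0) (hph0 : ph 0 = 0)
    (h : ∀ i < k, ph i < ph (i + 1) ∧ ph (i + 1) - ph i ≤ th (i + 1) - th i) :
    0 < ph k ∧ ∀ j ≤ k, 0 ≤ th j - ph j ∧ th j - ph j ≤ th k - ph k := by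
  have hpos : ∀ j, 0 < j → j ≤ k → 0 < ph j := by
    intro j hj hjk
    induction j, hj using Nat.le_induction with
    | base =>
      have := (h 0 (by omega)).1
      rw [hph0] at this
      exact this
    | succ j hj ih =>
      have h1 := ih (by omega)
      have h3 := (h j (by omega)).1
      linarith
  have hmono : ∀ j, j ≤ k → 0 ≤ th j - ph j := by
    intro j
    induction j with
    | zero => intro _; rw [hth0, hph0, sub_zero]
    | succ j ih =>
      intro hj
      have h1 := ih (by omega)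
      have h3 := (h j (by omega)).2
      linarith
  refine ⟨hpos k hk (le_refl _), fun j hj => ⟨hmono j hj, ?_⟩⟩
  have key : ∀ n, j + n ≤ k → th j - ph j ≤ th (j + n) - ph (j + n) := by
    intro n
    induction n with
    | zero => intro _; exact le_refl _
    | succ n ih =>
      intro hn
      have h1 := ih (by omega)
      have h3 := (h (j + n) (by omega)).2
      have e : j + (n + 1) = j + n + 1 := by omega
      rw [e]
      linarith
  have h1 := key (k - j) (by omega)
  have e : j + (k - j) = k := by omega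
  rwa [e] at h1

section
variable {V : Type} [Fintype V] [DecidableEq V] {M : PlaneGraph V} {L : Type}

/-- The end point of a boundary dart is the start point of a boundary dart. -/
theorem bd_next {U : M.Face → Prop} {d : M.G.Dart} (hd : M.Bd U d) :
    ∃ f : M.G.Dart, M.Bd U f ∧ f.fst = d.snd := by
  obtain ⟨f, hf, hfd⟩ := exists_bd_at {w | U w} (d := M.nxt d) (e := d.symm)
    (by rw [M.fc_nxt]; exact hd.1) (fun h => hd.2 h) (by rw [M.nxt_fst]; rfl)
  rw [mem_bd93] at hf
  exact ⟨f, hf, by rw [hfd, M.nxt_fst]⟩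

/-- REG1 on an open half space, from one covered generic point. -/
theorem cov_half {q : V → E3} {h' : M.Face → E3} (hS : M.Std q h') {U : M.Face → Prop}
    {m : E3} (hpos : ∀ d, M.Bd U d → 0 ≤ ⟪m, q d.fst⟫) {y0 : E3} (hy0 : ⟪m, y0⟫ < 0)
    (hc : M.Cov q h' U (nrm y0)) :
    ∀ y', ⟪m, y'⟫ < 0 → M.OffAll q (nrm y') → M.Cov q h' U (nrm y') := by
  intro y' hy' ho'
  have hne : ∀ y : E3, ⟪m, y⟫ < 0 → y ≠ 0 := by
    intro y hy h0
    rw [h0, inner_zero_right] at hy
    exact lt_irrefl _ hy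
  refine st_REG1 V M q h' hS U {y | ⟪m, y⟫ < 0} (convex_neg_half m).isPreconnected
    (fun y hy => hne y hy) ?_ y0 hy0 y' hy' ho' hc
  intro y hy d hd harc
  obtain ⟨f, hf, hfd⟩ := bd_next hd
  obtain ⟨_, s1, t1, hs1, ht1, hx⟩ := harc
  have h1 := hpos _ hd
  have h2 := hpos _ hf
  rw [hfd] at h2
  have h3 : 0 ≤ ⟪m, nrm y⟫ := by
    rw [hx, inner_add_right, real_inner_smul_right, real_inner_smul_right]
    exact add_nonneg (mul_nonneg hs1 h1) (mul_nonneg ht1 h2)
  have hy1 : ⟪m, y⟫ < 0 := hy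
  rw [inner_nrm] at h3
  have h4 : 0 < ‖y‖⁻¹ := inv_pos.mpr (norm_pos_iff.mpr (hne y hy1))
  have := mul_neg_of_pos_of_neg h4 hy1
  linarith

/-- a generic point is not covered both by U and by its complement -/
theorem cov_disj {q : V → E3} {h' : M.Face → E3} (hS : M.Std q h') {U U' : M.Face → Prop}
    (hUU : ∀ w, U w → ¬ U' w) {z : E3} (h1 : M.Cov q h' U z) (h2 : M.Cov q h' U' z) : False := by
  obtain ⟨hz, ho, w, hw, hw1⟩ := h1
  obtain ⟨_, _, w', hw', hw1'⟩ := h2
  obtain ⟨w0, _, hu⟩ := tiling hS.per hS.c3 hS.inc hS.cen hz ho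
  have e1 : w = w0 := by
    by_contra hne
    rw [hu w hne] at hw1
    norm_num at hw1
  have e2 : w' = w0 := by
    by_contra hne
    rw [hu w' hne] at hw1'
    norm_num at hw1'
  exact hUU w hw (by rw [e1, ← e2]; exact hw')

/-- two open half spaces covered by disjoint sets of faces are opposite -/
theorem disj_half (hreg4 : ST_REG4) {q : V → E3} {h' : M.Face → E3} (hS : M.Std q h')
    {U U' : M.Face → Prop} (hUU : ∀ w, U w → ¬ U' w) {g u : E3} (hg : ‖g‖ = 1)
    (hu : ‖u‖ = 1)
    (h1 : ∀ y', ⟪g, y'⟫ < 0 → M.OffAll q (nrm y') → M.Cov q h' U (nrm y'))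
    (h2 : ∀ y', ⟪u, y'⟫ < 0 → M.OffAll q (nrm y') → M.Cov q h' U' (nrm y')) : u = -g := by
  by_contra hne
  have h3 := inner_gt_neg_one hu hg hne
  obtain ⟨y, hy, hy0, ho, _⟩ := hreg4 V M q hS.inc ∅ (by simp)
    ({y | ⟪g, y⟫ < 0} ∩ {y | ⟪u, y⟫ < 0})
    ((isOpen_lt (by fun_prop) continuous_const).inter (isOpen_lt (by fun_prop)
      continuous_const))
    ⟨-(u + g), by
      show ⟪g, -(u + g)⟫ < 0
      rw [inner_neg_right, inner_add_right, inner_self_one hg, real_inner_comm u g]
      linarith, by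
      show ⟪u, -(u + g)⟫ < 0
      rw [inner_neg_right, inner_add_right, inner_self_one hu]
      linarith⟩
  exact cov_disj hS hUU (h1 y hy.1 ho) (h2 y hy.2 ho)

end

end H93

open H93 in
theorem st_SCUT (hreg2 : ST_REG2) (hreg4 : ST_REG4) (hCH : ST_CH) (hQR : ST_QR)
    (hSW : ST_SWING) (hNE : ST_NE0) (hTQ : ST_TQ) (hOP1 : ST_OP1)
    (hOP2 : ST_OP2) (hCUTL : ST_CUTL) : ST_SCUT := by
  intro V _ _ M L p q h h' n y U l s t b hSp hSq hLM hle hEq hC g hg hgpos hcovN
  have hpi := Real.pi_pos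
  have hF := hC.fan
  have hp := hSp.inc
  have hq := hSq.inc
  have ha := hF.ua
  obtain ⟨k, th, r, lam, hL, hr0, hrk, hthk, hlk, hgap, hlb, hk2⟩ :=
    hCUTL V M L p h n y U l s t b hSp hEq hC
  obtain ⟨om, hsw⟩ := hSW V M L p y l s t hLM hF
    (hNE V M L p h y l s t (k + 1) th r lam hSp hF hL)
  have htq : ∀ i < k + 1, ∃ d, M.InD (fun w => l w = lam i) d ∧ om d ≠ 0 ∧
      det3 y (p d.fst) (p d.snd) ≠ 0 := by
    refine hTQ V M L p h y l s t (k + 1) th r lam om hSp hF hL hsw ?_
    intro i hi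
    apply hC.nomer
    obtain ⟨d, _, _, _, hd⟩ := hL.top i hi
    exact ⟨_, hd⟩
  -- U covers the open half space of g
  have hcg : ∀ y', ⟪g, y'⟫ < 0 → M.OffAll q (nrm y') → M.Cov q h' U (nrm y') := by
    obtain ⟨δ, hδ, hb⟩ := hcovN
    obtain ⟨y1, hy1, hy10, ho1, _⟩ := hreg4 V M q hq ∅ (by simp)
      (Metric.ball (-g) δ ∩ {y | ⟪g, y⟫ < 0})
      (Metric.isOpen_ball.inter (isOpen_lt (by fun_prop) continuous_const))
      ⟨-g, Metric.mem_ball_self hδ, by
        show ⟪g, -g⟫ < 0
        rw [inner_neg_right, inner_self_one hg]; norm_num⟩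
    exact cov_half hSq hgpos hy1.2 ((hb y1 hy1.1).2 ho1)
  -- a boundary dart at s on the meridian 0
  obtain ⟨d0, hd0s, hd0r, hd0l, hd0b⟩ := hL.top k (Nat.lt_succ_self k)
  rw [hL.lamk] at hd0l
  rw [hlk] at hd0b
  have hd0U : M.Bd U d0 := by
    refine ⟨?_, (hC.lb _).mp hd0b⟩
    by_contra hno
    have := (hC.lb _).mpr hno
    rw [hd0l] at this
    exact hlb 0 (by omega) this
  have hgs : 0 ≤ ⟪g, q s⟫ := by
    have := hgpos d0 hd0U
    rwa [hd0s] at this
  have hUb : ∀ w, U w → ¬ (l w = b) := fun w hw hb => (hC.lb w).mp hb hw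
  have hE0 : ∀ d, M.Bd U d → M.E0 l d := by
    intro d hd h1
    have h2 : l (M.fc d.symm) = b := (hC.lb _).mpr hd.2
    exact hUb _ hd.1 (h1.trans h2)
  -- boundary of the label b
  have hBdb : ∀ d, M.Bd (fun w => l w = b) d → M.Bd U d.symm := by
    intro d hd
    refine ⟨?_, ?_⟩
    · by_contra hno
      exact hd.2 ((hC.lb _).mpr hno)
    · rw [SimpleGraph.Dart.symm_symm]
      exact (hC.lb _).mp hd.1
  have hopp : q t = - q s := by
    by_contra hcon
    have hm : q s + q t ≠ 0 := by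
      intro h0
      apply hcon
      rw [eq_neg_iff_add_eq_zero, add_comm]
      exact h0
    have hpos : ∀ v, M.OnE l v → 0 ≤ ⟪q s + q t, q v⟫ := by
      intro v hv
      obtain ⟨c1, c2⟩ := hCH V M L p q h y l s t hSp hq.unit hle hF v hv
      have e1 := inner_ge_of_ang (hq.unit s) (hq.unit v) ha (hp.unit v) c1
      have e2 := inner_ge_of_ang (hq.unit v) (hq.unit t) (hp.unit v) (by rwa [norm_neg]) c2
      rw [inner_neg_right, real_inner_comm] at e2
      rw [inner_add_left, real_inner_comm (q v) (q t)]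
      linarith
    obtain ⟨w0, hw0⟩ := covN_of_half hreg4 hSq (l := l) hm hpos
    obtain ⟨i, hi, hlam⟩ := hL.lams w0
    rw [hlam] at hw0
    by_cases hik : i < k
    · exact hOP1 V M L p q h h' y l s t (k + 1) th r lam om hSp hSq hLM hle hF hL hsw i hi
        (hgap i hik) (htq i hi) hcon hw0
    · have hik' : i = k := by omega
      rw [hik', hlk] at hw0
      obtain ⟨δ, hδ, hb⟩ := hw0
      have hmm : 0 < ⟪q s + q t, q s + q t⟫ := real_inner_self_pos.mpr hm
      have hinv : 0 < ‖q s + q t‖⁻¹ := inv_pos.mpr (norm_pos_iff.mpr hm)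
      obtain ⟨y1, hy1, hy10, ho1, _⟩ := hreg4 V M q hq ∅ (by simp)
        (Metric.ball (-nrm (q s + q t)) δ ∩ {y | ⟪q s + q t, y⟫ < 0})
        (Metric.isOpen_ball.inter (isOpen_lt (by fun_prop) continuous_const))
        ⟨-nrm (q s + q t), Metric.mem_ball_self hδ, by
          show ⟪q s + q t, -nrm (q s + q t)⟫ < 0
          rw [inner_neg_right, inner_nrm]
          have := mul_pos hinv hmm
          linarith⟩
      have hc2 := cov_half hSq (U := fun w => l w = b) (m := q s + q t)
        (fun d hd => by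
          have h1 := hE0 _ (hBdb d hd)
          exact hpos _ (onE_snd h1)) hy1.2 ((hb y1 hy1.1).2 ho1)
      have h3 := disj_half hreg4 hSq hUb hg (norm_nrm hm) hcg (fun y' hy' ho' => by
        apply hc2 y' _ ho'
        rw [real_inner_comm, inner_nrm, real_inner_comm] at hy'
        by_contra hno
        push Not at hno
        have := mul_nonneg hinv.le hno
        linarith)
      have h4 : 0 < ⟪q s + q t, q s⟫ := by
        rw [inner_add_left, inner_self_one (hq.unit s)]
        exact inner_gt_neg_one (hq.unit t) (hq.unit s) hcon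
      have h5 : 0 < ⟪nrm (q s + q t), q s⟫ := by
        rw [real_inner_comm, inner_nrm, real_inner_comm]
        exact mul_pos hinv h4
      rw [h3, inner_neg_left] at h5
      linarith
  obtain ⟨rq, hrq1, hrqk, hrqne, hrq⟩ := hQR V M L p q y l s t (k + 1) th r lam hp hq hle hF hL
    hopp
  have h2 : ∀ i < k, 0 < det3 (q s) (rq i) (rq (i + 1)) ∧ ⟪r i, r (i + 1)⟫
      ≤ ⟪rq i, rq (i + 1)⟫ := by
    intro i hi
    exact hOP2 V M L p q h h' y l s t (k + 1) th r lam om hSp hSq hLM hle hF hL hsw i (by omega)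
      (hgap i hi) (htq i (by omega)) hopp rq hrq1 hrqne hrqk hrq
  obtain ⟨ph, hph0, hph1, hph2⟩ := st_PL k th (q s) rq (hq.unit s) hL.th0
    (fun i hi => ⟨by have := hL.thl i (by omega); linarith, by have := hgap i hi; linarith⟩)
    (fun i hi => hrq1 i (by omega))
    (fun i hi => ⟨(h2 i hi).1, by
      rw [← FanL.inner_rr ha hL (show i ≤ k + 1 by omega) (show i + 1 ≤ k + 1 by omega)]
      exact (h2 i hi).2⟩)
  obtain ⟨hphk, hph3⟩ := ph_facts (show 0 < k by omega) hL.th0 hph0 hph1
  have hphk2 : ph k ≤ Real.pi := by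
    have := (hph3 k (le_refl _)).1
    rw [hthk] at this
    linarith
  obtain ⟨hu0, hx0⟩ := hrq1 0 (Nat.zero_le _)
  obtain ⟨huk, hxk⟩ := hrq1 k (by omega)
  have hdetk : 0 ≤ det3 (q s) (rq 0) (rq k) := by
    have e1 : det3 (q s) (rq 0) (rq k) = Real.sin (ph k) := by
      rw [hph2 k (le_refl _), det3_add_right, det3_smul_right, det3_smul_right, det3_crs,
        crs_unit (hq.unit s) hu0 hx0, det3_self_right]
      ring
    rw [e1]
    exact Real.sin_nonneg_of_nonneg_of_le_pi hphk.le hphk2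
  -- boundary vertices of U
  have hbv : ∀ d, M.Bd U d → ∃ c e : ℝ, 0 ≤ c ∧
      (q d.fst = c • rq 0 + e • q s ∨ q d.fst = c • rq k + e • q s) := by
    intro d hd
    obtain ⟨i, hi, ⟨c, hc, hc2⟩, _, hlab⟩ := hL.ray d (hE0 d hd)
    have hb2 : l (M.fc d.symm) = b := (hC.lb _).mpr hd.2
    have hik : i + 1 = k + 1 ∨ i + 1 = k := by
      by_cases h0 : i = k
      · left; omega
      right
      rcases hlab with ⟨_, _, h3⟩ | ⟨_, _, h3⟩
      · rw [hb2] at h3
        exact absurd h3.symm (hlb i (by omega))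
      · rw [hb2] at h3
        by_contra hno
        exact hlb (i + 1) (by omega) h3.symm
    refine ⟨c, ⟪y, p d.fst⟫, hc, ?_⟩
    rcases hik with h0 | h0
    · left
      have := hrq (i + 1) (by omega) d.fst (onE_fst (hE0 d hd)) c hc hc2
      rw [h0, hrqk] at this
      exact this
    · right
      have := hrq (i + 1) (by omega) d.fst (onE_fst (hE0 d hd)) c hc hc2
      rw [h0] at this
      exact this
  -- the label b covers the two half spaces
  have hu0' : ‖crs (q s) (rq 0)‖ = 1 := norm_one_iff.mpr (crs_unit (hq.unit s) hu0 hx0)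
  have huk' : ‖crs (q s) (rq k)‖ = 1 := norm_one_iff.mpr (crs_unit (hq.unit s) huk hxk)
  have hcov1 : ∀ y', ⟪crs (q s) (rq 0), y'⟫ < 0 → M.OffAll q (nrm y') →
      M.Cov q h' (fun w => l w = b) (nrm y') := by
    -- start at the dart d0
    obtain ⟨c, hc, hc2⟩ := hd0r
    have hE : M.E0 l d0 := hE0 d0 hd0U
    have hqd : q d0.snd = c • rq 0 + ⟪y, p d0.snd⟫ • q s := by
      rw [← hrqk]
      exact hrq (k + 1) (le_refl _) d0.snd (onE_snd hE) c hc hc2
    have hc0 : c ≠ 0 := by
      intro h0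
      rw [h0, zero_smul, zero_add] at hqd
      have h5 := crs_pos (hq.unit d0.fst) (hq.unit d0.snd) (hq.q_ne d0) (hq.ne_neg d0)
      have h6 : crs (q d0.fst) (q d0.snd) = 0 := by
        rw [hd0s, hqd]
        ext j
        fin_cases j <;> simp [crs] <;> ring
      rw [h6, inner_zero_left] at h5
      exact lt_irrefl _ h5
    have hc' : 0 < c := lt_of_le_of_ne hc (Ne.symm hc0)
    obtain ⟨x0, hx0a, hx0b, hx0c⟩ : ∃ x0 ∈ arc (q d0.fst) (q d0.snd), x0 ≠ q d0.fst ∧
        x0 ≠ q d0.snd := by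
      obtain ⟨_, q1, q2, q3⟩ := pt_props (hq.unit d0.fst) (hq.unit d0.snd) (hq.q_ne d0)
        (hq.ne_neg d0) (zero_lt_one)
      exact ⟨_, q1, q2, q3⟩
    obtain ⟨δ, hδ, hb⟩ := hreg2 V M q h' hSq d0.symm x0 (by
      rw [arc_comm]; exact hx0a) hx0c hx0b
    have hx0det : det3 (q s) (rq 0) x0 = 0 := by
      obtain ⟨_, s1, t1, _, _, hx⟩ := hx0a
      rw [hx, hd0s, hqd, det3_add_right, det3_smul_right, det3_smul_right, det3_add_right,
        det3_smul_right, det3_smul_right, det3_self_left, det3_self_right]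
      ring
    obtain ⟨τ, hτ, hmem⟩ := exists_left (x := x0) (n := -crs (q s) (rq 0))
      (Metric.ball_mem_nhds x0 hδ)
    obtain ⟨y1, hy1, hy10, ho1, _⟩ := hreg4 V M q hq ∅ (by simp)
      (Metric.ball x0 δ ∩ {y | ⟪crs (q s) (rq 0), y⟫ < 0})
      (Metric.isOpen_ball.inter (isOpen_lt (by fun_prop) continuous_const))
      ⟨_, hmem, by
        show ⟪crs (q s) (rq 0), x0 + τ • -crs (q s) (rq 0)⟫ < 0
        rw [inner_add_right, real_inner_smul_right, inner_neg_right, crs_inner, hx0det,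
          crs_unit (hq.unit s) hu0 hx0]
        linarith⟩
    have hdet1 : 0 < det3 (q d0.symm.fst) (q d0.symm.snd) y1 := by
      have e1 : det3 (q d0.symm.fst) (q d0.symm.snd) y1 = -c * ⟪crs (q s) (rq 0), y1⟫ := by
        have e2 : d0.symm.fst = d0.snd := rfl
        have e3 : d0.symm.snd = d0.fst := rfl
        rw [e2, e3, hd0s, hqd, crs_inner]
        simp only [det3, PiLp.add_apply, PiLp.smul_apply, smul_eq_mul]
        ring
      rw [e1]
      have := mul_neg_of_pos_of_neg hc' hy1.2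
      linarith
    have hcov := (hb y1 hy1.1).2 hdet1
    refine cov_half hSq (U := fun w => l w = b) ?_ hy1.2 ?_
    · intro d hd
      have h3 := hBdb d hd
      obtain ⟨f, hf, hfd⟩ := bd_next h3
      have e4 : d.symm.snd = d.fst := rfl
      rw [e4] at hfd
      rw [← hfd]
      obtain ⟨c', e', hc', h5 | h5⟩ := hbv f hf
      · rw [h5, crs_inner, det3_add_right, det3_smul_right, det3_smul_right, det3_self_left,
          det3_self_right]
        simp
      · rw [h5, crs_inner, det3_add_right, det3_smul_right, det3_smul_right, det3_self_left,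
          mul_zero, add_zero]
        exact mul_nonneg hc' hdetk
    · obtain ⟨z1, z2, w, hw, hw1⟩ := hcov
      refine ⟨z1, z2, w, ?_, hw1⟩
      show l w = b
      have hw' : w = M.fc d0.symm := hw
      rw [hw']
      exact hd0b
  have hcov2 : ∀ y', ⟪-crs (q s) (rq k), y'⟫ < 0 → M.OffAll q (nrm y') →
      M.Cov q h' (fun w => l w = b) (nrm y') := by
    obtain ⟨d1, hd1s, ⟨c, hc, hc2⟩, hd1l, hd1b⟩ := hL.top (k - 1) (by omega)
    have ek : k - 1 + 1 = k := by omega
    rw [ek] at hc2 hd1l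
    rw [hlk] at hd1l
    have hE : M.E0 l d1 := by
      intro h0
      rw [hd1l, hd1b] at h0
      exact hlb (k - 1) (by omega) h0.symm
    have hqd : q d1.snd = c • rq k + ⟪y, p d1.snd⟫ • q s :=
      hrq k (by omega) d1.snd (onE_snd hE) c hc hc2
    have hc0 : c ≠ 0 := by
      intro h0
      rw [h0, zero_smul, zero_add] at hqd
      have h5 := crs_pos (hq.unit d1.fst) (hq.unit d1.snd) (hq.q_ne d1) (hq.ne_neg d1)
      have h6 : crs (q d1.fst) (q d1.snd) = 0 := by
        rw [hd1s, hqd]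
        ext j
        fin_cases j <;> simp [crs] <;> ring
      rw [h6, inner_zero_left] at h5
      exact lt_irrefl _ h5
    have hc' : 0 < c := lt_of_le_of_ne hc (Ne.symm hc0)
    obtain ⟨x0, hx0a, hx0b, hx0c⟩ : ∃ x0 ∈ arc (q d1.fst) (q d1.snd), x0 ≠ q d1.fst ∧
        x0 ≠ q d1.snd := by
      obtain ⟨_, q1, q2, q3⟩ := pt_props (hq.unit d1.fst) (hq.unit d1.snd) (hq.q_ne d1)
        (hq.ne_neg d1) (zero_lt_one)
      exact ⟨_, q1, q2, q3⟩
    obtain ⟨δ, hδ, hb⟩ := hreg2 V M q h' hSq d1 x0 hx0a hx0b hx0c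
    have hx0det : det3 (q s) (rq k) x0 = 0 := by
      obtain ⟨_, s1, t1, _, _, hx⟩ := hx0a
      rw [hx, hd1s, hqd, det3_add_right, det3_smul_right, det3_smul_right, det3_add_right,
        det3_smul_right, det3_smul_right, det3_self_left, det3_self_right]
      ring
    obtain ⟨τ, hτ, hmem⟩ := exists_left (x := x0) (n := crs (q s) (rq k))
      (Metric.ball_mem_nhds x0 hδ)
    obtain ⟨y1, hy1, hy10, ho1, _⟩ := hreg4 V M q hq ∅ (by simp)
      (Metric.ball x0 δ ∩ {y | ⟪-crs (q s) (rq k), y⟫ < 0})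
      (Metric.isOpen_ball.inter (isOpen_lt (by fun_prop) continuous_const))
      ⟨_, hmem, by
        show ⟪-crs (q s) (rq k), x0 + τ • crs (q s) (rq k)⟫ < 0
        rw [inner_neg_left, inner_add_right, real_inner_smul_right, crs_inner, hx0det,
          crs_unit (hq.unit s) huk hxk]
        linarith⟩
    have hdet1 : 0 < det3 (q d1.fst) (q d1.snd) y1 := by
      have e1 : det3 (q d1.fst) (q d1.snd) y1 = c * ⟪crs (q s) (rq k), y1⟫ := by
        rw [hd1s, hqd, crs_inner]
        simp only [det3, PiLp.add_apply, PiLp.smul_apply, smul_eq_mul]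
        ring
      rw [e1]
      have h7 : ⟪-crs (q s) (rq k), y1⟫ < 0 := hy1.2
      rw [inner_neg_left] at h7
      exact mul_pos hc' (by linarith)
    have hcov := (hb y1 hy1.1).2 hdet1
    refine cov_half hSq (U := fun w => l w = b) ?_ hy1.2 ?_
    · intro d hd
      have h3 := hBdb d hd
      obtain ⟨f, hf, hfd⟩ := bd_next h3
      have e4 : d.symm.snd = d.fst := rfl
      rw [e4] at hfd
      rw [← hfd]
      obtain ⟨c', e', hc', h5 | h5⟩ := hbv f hf
      · rw [h5, inner_neg_left, crs_inner, det3_add_right, det3_smul_right, det3_smul_right,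
          det3_self_left, mul_zero, add_zero, det3_swap]
        have := mul_nonneg hc' hdetk
        linarith
      · rw [h5, inner_neg_left, crs_inner, det3_add_right, det3_smul_right, det3_smul_right,
          det3_self_left, det3_self_right]
        simp
    · obtain ⟨z1, z2, w, hw, hw1⟩ := hcov
      refine ⟨z1, z2, w, ?_, hw1⟩
      show l w = b
      have hw' : w = M.fc d1 := hw
      rw [hw']
      exact hd1l
  have e1 := disj_half hreg4 hSq hUb hg hu0' hcg hcov1
  have e2 := disj_half hreg4 hSq hUb hg (by rw [norm_neg]; exact huk') hcg hcov2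
  have e1' : g = -crs (q s) (rq 0) := by rw [e1, neg_neg]
  have e2' : g = crs (q s) (rq k) := (neg_injective e2).symm
  intro d hd
  obtain ⟨c, e, hc, h5 | h5⟩ := hbv d hd
  · rw [h5, e1', inner_neg_left, crs_inner, det3_add_right, det3_smul_right, det3_smul_right,
      det3_self_left, det3_self_right]
    simp
  · rw [h5, e2', crs_inner, det3_add_right, det3_smul_right, det3_smul_right,
      det3_self_left, det3_self_right]
    simp

end Pool.Agent.Helper30.N9
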