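import Pool.Agent.Helper30.N9.Defs

/-!
Non-vacuity test of the definitions of MP_9b91d1: the tetrahedron.
-/

open scoped RealInnerProductSpace

namespace Pool.Agent.Helper30.N9.Tet

open Pool.Agent.Helper30.N9

/-- the third vertex of the face to the left of the dart `a b` -/
def t (a b : Fin 4) : Fin 4 :=
  (![![0, 2, 3, 1], ![3, 0, 0, 2], ![1, 3, 0, 0], ![2, 0, 1, 0]] : Fin 4 → Fin 4 → Fin 4) a b

theorem t_ne : ∀ a b : Fin 4, a ≠ b → b ≠ t a b ∧ t a b ≠ a := by decide

theorem t_rot : ∀ a b : Fin 4, a ≠ b → t b (t a b) = a := by decide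

abbrev K4 : SimpleGraph (Fin 4) := ⊤

/-- the next dart on the face -/
def nxt : Equiv.Perm K4.Dart where
  toFun d := ⟨(d.snd, t d.fst d.snd), (t_ne _ _ d.adj).1⟩
  invFun d := ⟨(t d.fst d.snd, d.fst), (t_ne _ _ d.adj).2⟩
  left_inv d := by
    have h := t_rot d.fst d.snd d.adj
    apply SimpleGraph.Dart.ext
    exact Prod.ext h rfl
  right_inv d := by
    have h := (t_ne _ _ d.adj).2
    apply SimpleGraph.Dart.ext
    refine Prod.ext rfl ?_
    have : ∀ a b : Fin 4, a ≠ b → t (t a b) a = b := by decide
    exact this d.fst d.snd d.adj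

def rot : Equiv.Perm K4.Dart where
  toFun d := nxt d.symm
  invFun d := (nxt.symm d).symm
  left_inv d := by simp
  right_inv d := by simp

theorem rot_eq (d : K4.Dart) : rot d = nxt d.symm := rfl

theorem dart_ext {d e : K4.Dart} (h1 : d.fst = e.fst) (h2 : d.snd = e.snd) : d = e :=
  SimpleGraph.Dart.ext _ _ (Prod.ext h1 h2)

theorem rot_snd (d : K4.Dart) : (rot d).snd = t d.snd d.fst := rfl
theorem rot_fst (d : K4.Dart) : (rot d).fst = d.fst := rfl
theorem nxt_snd (d : K4.Dart) : (nxt d).snd = t d.fst d.snd := rfl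
theorem nxt_fst (d : K4.Dart) : (nxt d).fst = d.snd := rfl

theorem rot_trans (d e : K4.Dart) (h : d.fst = e.fst) : rot.SameCycle d e := by
  have key : ∀ a b c : Fin 4, a ≠ b → a ≠ c → c = b ∨ c = t b a ∨ c = t (t b a) a := by decide
  rcases key d.fst d.snd e.snd d.adj (by rw [h]; exact e.adj) with h1 | h1 | h1
  · refine ⟨0, ?_⟩
    simp only [zpow_zero, Equiv.Perm.coe_one, id_eq]
    exact dart_ext h h1.symm
  · refine ⟨1, ?_⟩
    simp only [zpow_one]
    exact dart_ext h h1.symm
  · refine ⟨2, ?_⟩
    have : (rot ^ (2 : ℤ)) d = rot (rot d) := rfl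
    rw [this]
    exact dart_ext h h1.symm

/-- the vertex opposite to the face of a dart -/
def op (d : K4.Dart) : Fin 4 := t d.snd d.fst

theorem op_nxt (d : K4.Dart) : op (nxt d) = op d := by
  have key : ∀ a b : Fin 4, a ≠ b → t (t a b) b = t b a := by decide
  exact key d.fst d.snd d.adj

theorem op_same {d e : K4.Dart} (h : nxt.SameCycle d e) : op d = op e := by
  obtain ⟨i, rfl⟩ := h
  have h1 : ∀ n : ℕ, ∀ x : K4.Dart, op ((nxt ^ n) x) = op x := by
    intro n
    induction n with
    | zero => intro x; rfl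
    | succ n ih => intro x; rw [pow_succ', Equiv.Perm.mul_apply, op_nxt, ih]
  obtain ⟨n, rfl | rfl⟩ := i.eq_nat_or_neg
  · rw [zpow_natCast, h1]
  · have h2 := h1 n ((nxt ^ n).symm d)
    rw [Equiv.apply_symm_apply] at h2
    rw [zpow_neg, zpow_natCast]
    exact h2

theorem same_op {d e : K4.Dart} (h : op d = op e) : nxt.SameCycle d e ∧
    (e = d ∨ e = nxt d ∨ e = nxt (nxt d)) := by
  have key : ∀ a b c c' : Fin 4, a ≠ b → c ≠ c' → t b a = t c' c →
    (c = a ∧ c' = b) ∨ (c = b ∧ c' = t a b) ∨ (c = t a b ∧ c' = t b (t a b)) := by decide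
  rcases key d.fst d.snd e.fst e.snd d.adj e.adj h with h1 | h1 | h1
  · have : e = d := dart_ext h1.1 h1.2
    exact ⟨⟨0, by simp [this]⟩, Or.inl this⟩
  · have : e = nxt d := dart_ext h1.1 h1.2
    exact ⟨⟨1, by simp [this]⟩, Or.inr (Or.inl this)⟩
  · have : e = nxt (nxt d) := dart_ext h1.1 h1.2
    exact ⟨⟨2, by rw [this]; rfl⟩, Or.inr (Or.inr this)⟩

theorem card_faces : Nat.card (Quotient (Equiv.Perm.SameCycle.setoid nxt)) = 4 := by
  have : Function.Bijective (Quotient.lift (s := Equiv.Perm.SameCycle.setoid nxt) op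
      (fun a b h => op_same h)) := by
    constructor
    · intro x y
      induction x using Quotient.inductionOn with
      | h a =>
        induction y using Quotient.inductionOn with
        | h b =>
          intro h
          exact Quotient.sound (same_op h).1
    · intro v
      have key : ∀ v : Fin 4, ∃ a b : Fin 4, a ≠ b ∧ t b a = v := by decide
      obtain ⟨a, b, hab, hv⟩ := key v
      exact ⟨Quotient.mk _ ⟨(a, b), hab⟩, hv⟩
  rw [Nat.card_congr (Equiv.ofBijective _ this), Nat.card_eq_fintype_card, Fintype.card_fin]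

/-- the tetrahedron as a plane graph -/
def tet : PlaneGraph (Fin 4) where
  G := K4
  decAdj := inferInstance
  nxt := nxt
  nxt_fst _ := rfl
  rot := rot
  rot_eq _ := rfl
  trans := rot_trans
  euler := by
    rw [card_faces]
    have : (K4.edgeFinset).card = 6 := by
      rw [SimpleGraph.card_edgeFinset_top_eq_card_choose_two]
      rfl
    rw [this, Fintype.card_fin]

theorem tet_conn3 : tet.Conn3 := by
  refine ⟨by simp, ?_⟩
  intro s hs
  have hne : ∃ v : Fin 4, v ∉ s := by
    by_contra h
    push Not at h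
    have : s = Finset.univ := Finset.eq_univ_iff_forall.mpr h
    rw [this] at hs
    simp at hs
  obtain ⟨v, hv⟩ := hne
  have e : (tet.G.induce {v | v ∉ s}) = ⊤ := by
    ext a b
    simp only [SimpleGraph.comap_adj, Function.Embedding.subtype_apply, SimpleGraph.top_adj, tet]
    constructor
    · intro h h'
      exact h (by rw [h'])
    · intro h h'
      exact h (Subtype.ext h')
  rw [e]
  have : Nonempty {v : Fin 4 | v ∉ s} := ⟨⟨v, hv⟩⟩
  exact SimpleGraph.connected_top

/-! ### the regular tetrahedron -/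

/-- `1 / sqrt 3` -/
noncomputable def κ : ℝ := 1 / Real.sqrt 3

theorem κ_sq : κ * κ = 1 / 3 := by
  unfold κ
  rw [div_mul_div_comm, Real.mul_self_sqrt (by norm_num)]
  norm_num

theorem κ_pos : 0 < κ := by unfold κ; positivity

/-- signs -/
def sg : Fin 4 → Fin 3 → ℝ := ![![1, 1, 1], ![1, -1, -1], ![-1, 1, -1], ![-1, -1, 1]]

noncomputable def pt (v : Fin 4) : E3 := WithLp.toLp 2 (fun i => κ * sg v i)

theorem inner3 (a b : E3) : ⟪a, b⟫ = a 0 * b 0 + a 1 * b 1 + a 2 * b 2 := by
  rw [PiLp.inner_apply, Fin.sum_univ_three]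
  simp only [RCLike.inner_apply, conj_trivial]
  ring

theorem pt_apply (v : Fin 4) (i : Fin 3) : pt v i = κ * sg v i := rfl

theorem inner_pt (u v : Fin 4) : ⟪pt u, pt v⟫ = if u = v then 1 else -1 / 3 := by
  have h := κ_sq
  rw [inner3]
  simp only [pt_apply]
  have e : κ * sg u 0 * (κ * sg v 0) + κ * sg u 1 * (κ * sg v 1) + κ * sg u 2 * (κ * sg v 2) =
      (κ * κ) * (sg u 0 * sg v 0 + sg u 1 * sg v 1 + sg u 2 * sg v 2) := by ring
  rw [e, h]
  fin_cases u <;> fin_cases v <;> simp [sg] <;> norm_num

theorem norm_pt (v : Fin 4) : ‖pt v‖ = 1 := by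
  have h := inner_pt v v
  rw [if_pos rfl, real_inner_self_eq_norm_sq] at h
  nlinarith [norm_nonneg (pt v)]

theorem det_pt : ∀ a b : Fin 4, a ≠ b → det3 (-pt (t b a)) (pt a) (pt b) = 4 / 3 * κ := by
  have h := κ_sq
  intro a b hab
  have e : ∀ c, det3 (-pt c) (pt a) (pt b) = -(κ * (κ * κ)) *
      (sg c 0 * (sg a 1 * sg b 2 - sg a 2 * sg b 1) - sg c 1 * (sg a 0 * sg b 2 - sg a 2 * sg b 0)
        + sg c 2 * (sg a 0 * sg b 1 - sg a 1 * sg b 0)) := by
    intro c
    unfold det3
    simp only [PiLp.neg_apply, pt_apply]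
    ring
  rw [e, h]
  fin_cases a <;> fin_cases b <;> first | (exact absurd rfl hab) | (simp [sg, t]; ring_nf)

/-- the areas of the twelve triangles -/
theorem om_pt (a b : Fin 4) (hab : a ≠ b) : Om (-pt (t b a)) (pt a) (pt b) = Real.pi / 3 := by
  have h1 : t b a ≠ a ∧ t b a ≠ b := by
    have key : ∀ a b : Fin 4, a ≠ b → t b a ≠ a ∧ t b a ≠ b := by decide
    exact key a b hab
  unfold Om
  have e : zc (-pt (t b a)) (pt a) (pt b) =
      ((8 / 3 * κ : ℝ) : ℂ) * (Complex.cos ((Real.pi / 6 : ℝ) : ℂ) +
        Complex.sin ((Real.pi / 6 : ℝ) : ℂ) * Complex.I) := by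
    apply Complex.ext
    · unfold zc
      rw [inner_neg_left, inner_neg_right, inner_pt, inner_pt, inner_pt, if_neg h1.1, if_neg hab,
        if_neg (Ne.symm h1.2)]
      rw [← Complex.ofReal_cos, ← Complex.ofReal_sin]
      simp only [Complex.mul_re, Complex.ofReal_re, Complex.ofReal_im, Complex.add_re,
        Complex.I_re, Complex.I_im, Complex.add_im, Complex.mul_im]
      rw [Real.cos_pi_div_six]
      have h3 : κ * Real.sqrt 3 = 1 := by
        unfold κ
        rw [one_div, inv_mul_cancel₀ (by positivity)]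
      linear_combination (-(4 : ℝ) / 3) * h3
    · unfold zc
      rw [← Complex.ofReal_cos, ← Complex.ofReal_sin]
      simp only [Complex.mul_re, Complex.ofReal_re, Complex.ofReal_im, Complex.add_re,
        Complex.I_re, Complex.I_im, Complex.add_im, Complex.mul_im]
      rw [Real.sin_pi_div_six, det_pt a b hab]
      ring
  rw [e, Complex.arg_mul_cos_add_sin_mul_I (by have := κ_pos; positivity)]
  · ring
  · constructor <;> linarith [Real.pi_pos]

theorem adj_ne (d : tet.G.Dart) : d.fst ≠ d.snd := d.adj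

theorem card_darts : Fintype.card tet.G.Dart = 12 := by
  have : Fintype.card K4.Dart = 12 := by decide
  exact this

theorem ang_pt (d : tet.G.Dart) : ang (pt d.fst) (pt d.snd) = Real.arccos (-1 / 3) := by
  unfold ang
  rw [inner_pt, if_neg (adj_ne d)]

theorem face_card (d : tet.G.Dart) : (tet.face d).card ≤ 3 := by
  classical
  have : tet.face d ⊆ {d, nxt d, nxt (nxt d)} := by
    intro e he
    unfold PlaneGraph.face at he
    rw [Finset.mem_filter] at he
    have h := op_same he.2
    rcases (same_op h).2 with h1 | h1 | h1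
    · rw [h1]; exact Finset.mem_insert_self _ _
    · rw [h1]; exact Finset.mem_insert_of_mem (Finset.mem_insert_self _ _)
    · rw [h1]
      exact Finset.mem_insert_of_mem (Finset.mem_insert_of_mem (Finset.mem_singleton_self _))
  exact (Finset.card_le_card this).trans Finset.card_le_three

theorem coef (c c' : Fin 4 → ℝ) (h : ∑ v, c v • pt v = ∑ v, c' v • pt v) (u w : Fin 4) :
    c u - c' u = c w - c' w := by
  have hi : ∀ (c : Fin 4 → ℝ) (u : Fin 4), ⟪∑ v, c v • pt v, pt u⟫ =
      (4 * c u - ∑ v, c v) / 3 := by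
    intro c u
    rw [sum_inner]
    simp only [real_inner_smul_left, inner_pt]
    have : ∀ v, c v * (if v = u then (1 : ℝ) else -1 / 3) =
        (if v = u then 4 / 3 * c v else 0) - c v / 3 := by
      intro v
      split <;> ring
    rw [Finset.sum_congr rfl (fun v _ => this v), Finset.sum_sub_distrib, ← Finset.sum_div]
    simp
    ring
  have h1 := hi c u
  have h2 := hi c' u
  have h3 := hi c w
  have h4 := hi c' w
  rw [h] at h1 h3
  linarith

theorem two (a b : Fin 4) (hab : a ≠ b) (s r : ℝ) :
    s • pt a + r • pt b = ∑ v, (if v = a then s else if v = b then r else 0) • pt v := by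
  have : ∀ v, (if v = a then s else if v = b then r else 0) • pt v =
      (if v = a then s • pt v else 0) + (if v = b then r • pt v else 0) := by
    intro v
    by_cases h1 : v = a
    · have h2 : v ≠ b := by rw [h1]; exact hab
      simp [h1, hab]
    · simp [h1]
  rw [Finset.sum_congr rfl (fun v _ => this v), Finset.sum_add_distrib]
  simp

theorem embed_pt (a b c d : Fin 4) (hab : a ≠ b) (hcd : c ≠ d) (hne : s(a, b) ≠ s(c, d)) (x : E3)
    (h1 : x ∈ arc (pt a) (pt b)) (h2 : x ∈ arc (pt c) (pt d)) :
    ∃ v, v ∈ s(a, b) ∧ v ∈ s(c, d) ∧ x = pt v := by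
  obtain ⟨hx, s, r, hs, hr, e1⟩ := h1
  obtain ⟨_, s', r', hs', hr', e2⟩ := h2
  have h3 : ∑ v, (if v = a then s else if v = b then r else 0) • pt v =
      ∑ v, (if v = c then s' else if v = d then r' else 0) • pt v := by
    rw [← two a b hab, ← two c d hcd, ← e1, ← e2]
  have hc := coef _ _ h3
  have fin : ∀ (v : Fin 4) (y : ℝ), 0 ≤ y → x = y • pt v → x = pt v := by
    intro v y hy hxy
    have h4 := hx
    rw [hxy, norm_smul, norm_pt, mul_one, Real.norm_eq_abs, abs_of_nonneg hy] at h4
    rw [hxy, h4, one_smul]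
  have hx0 : x ≠ 0 := by
    intro h
    rw [h, norm_zero] at hx
    norm_num at hx
  have hne' : ¬ (a = c ∧ b = d) ∧ ¬ (a = d ∧ b = c) := by
    constructor
    · rintro ⟨rfl, rfl⟩; exact hne rfl
    · rintro ⟨rfl, rfl⟩; exact hne Sym2.eq_swap
  by_cases hac : a = c
  · -- common vertex a
    subst hac
    have hbd : b ≠ d := fun h => hne'.1 ⟨rfl, h⟩
    have h4 := hc b d
    rw [if_neg hab.symm, if_pos rfl, if_neg hab.symm, if_neg hbd, if_neg hcd.symm,
      if_neg hbd.symm, if_neg hcd.symm, if_pos rfl] at h4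
    have hr0 : r = 0 := by linarith
    refine ⟨a, by simp, by simp, fin a s hs ?_⟩
    rw [e1, hr0]
    simp
  · by_cases had : a = d
    · subst had
      have hbc : b ≠ c := fun h => hne'.2 ⟨rfl, h⟩
      have h4 := hc b c
      rw [if_neg hab.symm, if_pos rfl, if_neg hbc, if_neg hab.symm, if_neg hcd, if_neg hbc.symm,
        if_pos rfl] at h4
      have hr0 : r = 0 := by linarith
      refine ⟨a, by simp, by simp, fin a s hs ?_⟩
      rw [e1, hr0]
      simp
    · by_cases hbc : b = c
      · subst hbc
        have h4 := hc a d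
        rw [if_pos rfl, if_neg hac, if_neg had, if_neg (Ne.symm had), if_neg hcd.symm,
          if_neg hcd.symm, if_pos rfl] at h4
        have hs0 : s = 0 := by linarith
        refine ⟨b, by simp, by simp, fin b r hr ?_⟩
        rw [e1, hs0]
        simp
      · by_cases hbd : b = d
        · subst hbd
          have h4 := hc a c
          rw [if_pos rfl, if_neg hac, if_neg had, if_neg (Ne.symm hac), if_neg (Ne.symm hbc),
            if_pos rfl] at h4
          have hs0 : s = 0 := by linarith
          refine ⟨b, by simp, by simp, fin b r hr ?_⟩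
          rw [e1, hs0]
          simp
        · exfalso
          have h4 := hc a c
          have h5 := hc b c
          rw [if_pos rfl, if_neg hac, if_neg had, if_neg (Ne.symm hac), if_neg (Ne.symm hbc),
            if_pos rfl] at h4
          rw [if_neg hab.symm, if_pos rfl, if_neg hbc, if_neg hbd, if_neg (Ne.symm hac),
            if_neg (Ne.symm hbc), if_pos rfl] at h5
          have hs0 : s = 0 := by linarith
          have hr0 : r = 0 := by linarith
          apply hx0
          rw [e1, hs0, hr0]
          simp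

/-- **The regular tetrahedron is in the class.** -/
theorem tet_inC : tet.InC pt where
  unit := norm_pt
  inj := by
    intro u v h
    by_contra hne
    have h1 := inner_pt u v
    rw [if_neg hne, h, inner_pt, if_pos rfl] at h1
    norm_num at h1
  ne_neg := by
    intro d h
    have h1 := inner_pt d.fst d.snd
    rw [if_neg (adj_ne d), h, inner_neg_left, inner_pt, if_pos rfl] at h1
    norm_num at h1
  embed := by
    intro d e hde x h1 h2
    exact embed_pt d.fst d.snd e.fst e.snd (adj_ne d) (adj_ne e) hde x h1 h2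
  per := by
    intro d
    rw [Finset.sum_congr rfl (fun e _ => ang_pt e), Finset.sum_const, nsmul_eq_mul]
    have h1 : ((tet.face d).card : ℝ) ≤ 3 := by exact_mod_cast face_card d
    have h2 : 0 ≤ Real.arccos (-1 / 3) := Real.arccos_nonneg _
    have h3 : Real.arccos (-1 / 3) < 2 * Real.pi / 3 := by
      have h4 : Real.arccos (-1 / 2) = 2 * Real.pi / 3 := by
        have h5 : Real.cos (2 * Real.pi / 3) = -1 / 2 := by
          have : 2 * Real.pi / 3 = Real.pi - Real.pi / 3 := by ring
          rw [this, Real.cos_pi_sub, Real.cos_pi_div_three]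
          norm_num
        rw [← h5, Real.arccos_cos (by positivity) (by linarith [Real.pi_pos])]
      rw [← h4]
      exact Real.arccos_lt_arccos (by norm_num) (by norm_num) (by norm_num)
    nlinarith
  deg := by
    refine ⟨fun d => -pt (op d), ?_, ?_, ?_, ?_⟩
    · intro d
      rw [norm_neg, norm_pt]
    · intro d
      exact congrArg (fun v => -pt v) (op_nxt d)
    · intro d
      show 0 < ⟪-pt (op d), pt d.fst⟫
      have key : ∀ a b : Fin 4, a ≠ b → t b a ≠ a := by decide
      have h1 : ¬ (op d = d.fst) := key d.fst d.snd (adj_ne d)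
      rw [inner_neg_left, inner_pt, if_neg h1]
      norm_num
    · have : ∀ d : tet.G.Dart, Om (-pt (op d)) (pt d.fst) (pt d.snd) = Real.pi / 3 :=
        fun d => om_pt d.fst d.snd (adj_ne d)
      rw [Finset.sum_congr rfl (fun d _ => this d), Finset.sum_const, Finset.card_univ,
        card_darts, nsmul_eq_mul]
      push_cast
      ring

end Pool.Agent.Helper30.N9.Tet
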