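import Pool.Agent.Helper30.N9.Sheet2

/-! MP_9b91d1_co: row FULLCX (helper93). -/

open scoped RealInnerProductSpace Topology

namespace Pool.Agent.Helper30.N9

open PlaneGraph

theorem st_FULLCX : ST_FULLCX := by
  intro V _ _ M p h hG
  have hq := hG.inC
  refine ⟨{ p := p, fst := fun d => d.fst, snd := fun d => d.snd, rev := fun d => d.symm,
            left := M.fc, unit := hq.unit, inj := hq.inj, rev_rev := fun d => ?_,
            fst_rev := fun d => rfl, ne := fun d => d.adj.ne, nn := hq.ne_neg,
            closed := fun c u => ?_, surj := ?_, inc := fun u => ?_,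
            lr := fun d => fc_symm_ne hG.per hG.c3 d, embed := ?_, vert := ?_, hc := h,
            cen := fun c => hG.cen c, w01 := fun c z hz ho => ?_,
            wsum := fun z hz ho => ?_ }, rfl, rfl, rfl, rfl, rfl, rfl⟩
  · exact SimpleGraph.Dart.symm_symm d
  · have h1 := sum_snd c (fun v => if v = u then (1 : ℕ) else 0)
    rw [← Finset.card_filter, ← Finset.card_filter] at h1
    unfold fdarts at h1
    rw [Finset.filter_filter, Finset.filter_filter] at h1
    exact h1
  · intro c
    exact ⟨c.out, Quotient.out_eq c⟩
  · have hcard := hG.c3.1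
    have hne : Nonempty M.G.Dart := by
      by_contra hcon
      rw [not_nonempty_iff] at hcon
      have h1 := hG.c3.2 ∅ (by simp)
      have h2 : ∃ v : V, v ≠ u := by
        by_contra hno
        push Not at hno
        have : Fintype.card V ≤ 1 := by
          rw [Fintype.card_le_one_iff]
          intro a b
          rw [hno a, hno b]
        omega
      obtain ⟨v, hv⟩ := h2
      obtain ⟨w⟩ := h1.preconnected ⟨u, by simp⟩ ⟨v, by simp⟩
      cases w with
      | nil => exact hv rfl
      | cons hadj _ => exact hcon.false ⟨(_, _), hadj⟩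
    obtain ⟨d0⟩ := hne
    obtain ⟨d, hd, _⟩ := exists_third hG.c3 u d0 d0
    exact ⟨d, hd⟩
  · intro d e h1 h2 x hx hx2
    by_contra hcon
    push Not at hcon
    exact arc_disj hq h1 h2 hx hcon.1 hcon.2 hx2
  · intro u d hx
    obtain ⟨e, he, h1, h2⟩ := exists_third hG.c3 u d d.symm
    by_contra hcon
    push Not at hcon
    refine arc_disj hq h1 h2 hx (fun h' => hcon.1 (hq.inj h')) (fun h' => hcon.2 (hq.inj h')) ?_
    rw [← he]
    exact left_mem_arc (hq.unit _)
  · exact FW_01 hG.per hG.c3 hq hG.cen c hz (fun e _ => ho e)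
  · exact sum_FW hq hG.cen hz ho

end Pool.Agent.Helper30.N9
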